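import Mathlib
import Pool.Agent.TH551.HA.Hall

/-!
# S-unit germs of positive height which are integral at the primes are large

`Pool.Agent.TH551.HA` proves the inequality of Hall for sums of S-units up to an arbitrarily small
exponent. Here: the constant term of the Wronskian vanishes, so that the exponent can be improved.
-/

set_option autoImplicit false
set_option linter.unusedSectionVars false
set_option linter.unusedVariables false

namespace Pool.Agent.TH712.HG

open Filter Topology Pool.Agent.TH932.Germs Pool.Agent.TH551.SU Pool.Agent.TH551.ZP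
open Pool.Agent.TH551.SU.CRV Pool.Agent.TH551.HA

variable {s : ℕ} {b : Fin s → ℕ} {L : ℕ → ℝ}

/-- the denominator of a unit is at most the product of its absolute values at the primes -/
lemma den_le (hb : ∀ v, (b v).Prime) (hbi : Function.Injective b) {x : ℚ} (hx : IsSU b x) :
    (x.den : ℝ) ≤ ∏ v : Fin s, max 1 (av b (some v) x) := by
  classical
  obtain ⟨σ, e, hσ, hxe⟩ := hx
  have hb0 : ∀ v, (b v : ℚ) ≠ 0 := fun v => by exact_mod_cast (hb v).ne_zero
  have hx0 : x ≠ 0 := by
    rw [hxe]
    refine mul_ne_zero ?_ (Finset.prod_ne_zero_iff.2 fun v _ => zpow_ne_zero _ (hb0 v))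
    rcases hσ with h | h <;> simp [h]
  -- the absolute values
  have hav : ∀ w : Fin s, av b (some w) x = ((b w : ℝ) ^ (e w))⁻¹ := by
    intro w
    have hw := Fact.mk (hb w)
    have h3 : padicNorm (b w) x = ((b w : ℚ) ^ (e w))⁻¹ := by
      rw [padicNorm.eq_zpow_of_nonzero hx0, hxe, Pool.Agent.TH551.ZP.AR.val_SU_in hb hbi hσ e w,
        zpow_neg]
    simp only [av]
    rw [h3]
    push_cast
    rfl
  -- the denominator divides the product of the negative powers
  set d : ℕ := ∏ v, (b v) ^ ((-e v).toNat) with hd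
  set nn : ℤ := σ * ∏ v, (b v : ℤ) ^ ((e v).toNat) with hnn
  have hd0 : (d : ℤ) ≠ 0 := by
    rw [hd]
    have : ∏ v, (b v) ^ ((-e v).toNat) ≠ 0 :=
      Finset.prod_ne_zero_iff.2 fun v _ => pow_ne_zero _ (hb v).ne_zero
    exact_mod_cast this
  have hxd : x = (nn : ℚ) / (d : ℤ) := by
    have hdq : ((d : ℤ) : ℚ) ≠ 0 := by exact_mod_cast hd0
    rw [eq_div_iff hdq, hxe, hnn, hd]
    push_cast
    rw [mul_assoc, ← Finset.prod_mul_distrib]
    congr 1
    refine Finset.prod_congr rfl fun v _ => ?_
    rw [← zpow_natCast, ← zpow_natCast, ← zpow_add₀ (hb0 v)]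
    congr 1
    omega
  have h1 : (x.den : ℤ) ∣ (d : ℤ) := by
    have h5 := Rat.den_dvd nn (d : ℤ)
    rw [Rat.divInt_eq_div] at h5
    rw [hxd]
    exact h5
  have h2 : (x.den : ℝ) ≤ d := by
    have h3 := Int.le_of_dvd (by
      have : 0 < (d : ℤ) := lt_of_le_of_ne (Int.natCast_nonneg d) (Ne.symm hd0)
      exact this) h1
    exact_mod_cast h3
  refine h2.trans ?_
  rw [hd]
  push_cast
  refine Finset.prod_le_prod (fun v _ => by positivity) fun v _ => ?_
  rw [hav v]
  rcases le_total 0 (e v) with he | he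
  · refine le_trans (le_of_eq ?_) (le_max_left _ _)
    have : (-e v).toNat = 0 := by omega
    rw [this, pow_zero]
  · refine le_trans (le_of_eq ?_) (le_max_right _ _)
    rw [← zpow_neg, ← zpow_natCast]
    congr 1
    omega

/-- **S-unit germs of positive height which are integral at the primes are large.** -/
theorem grow (hb : ∀ v, (b v).Prime) (hbi : Function.Injective b) (hL : Tendsto L atTop atTop)
    {g : GG} (hg : GSU b g) (hgK : g ∉ KK L hL) (hgi : ∀ v : Fin s, Dom b L (some v) g 1) :
    ∃ δ : ℝ, 0 < δ ∧ ∀ᶠ n in (UU : Filter ℕ), Real.exp (δ * L n) ≤ av b none (rep g n) := by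
  classical
  obtain ⟨a, rfl, ha⟩ := hg
  have h1 : gm (fun n => ((a n).num : ℚ) / ((a n).den : ℤ)) ∉ KK L hL := by
    have h2 : (fun n => ((a n).num : ℚ) / (((a n).den : ℤ) : ℚ)) = a := by
      funext n
      exact_mod_cast Rat.num_div_den (a n)
    rw [h2]
    exact hgK
  obtain ⟨ε, hε, h2⟩ := SUI.large hL (fun n => (a n).num) (fun n => ((a n).den : ℤ))
    (fun n => by exact_mod_cast (a n).den_ne_zero) h1
  refine ⟨ε / 2, by positivity, ?_⟩
  have hs1 : (0 : ℝ) < (s : ℝ) + 1 := by positivity
  have h3 : ∀ᶠ n in (UU : Filter ℕ), ∀ v : Fin s,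
      av b (some v) (rep (gm a) n) ≤ Real.exp (ε / (2 * (s + 1)) * L n) := by
    refine eventually_all.2 fun v => ?_
    filter_upwards [hgi v (ε / (2 * (s + 1))) (by positivity), rep_one] with n h6 h7
    rwa [h7, av_one hb, mul_one] at h6
  filter_upwards [h2, h3, rep_gm a, L_nonneg hL] with n h4 h5 h6 h7
  rw [h6] at h5 ⊢
  have hE1 : 1 ≤ Real.exp (ε / (2 * (s + 1)) * L n) := Real.one_le_exp (by positivity)
  have h8 : ((a n).den : ℝ) ≤ Real.exp (ε / 2 * L n) := by
    refine (den_le hb hbi (ha n)).trans ?_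
    calc ∏ v : Fin s, max 1 (av b (some v) (a n)) ≤
        ∏ v : Fin s, Real.exp (ε / (2 * (s + 1)) * L n) :=
          Finset.prod_le_prod (fun v _ => by positivity) fun v _ => max_le hE1 (h5 v)
      _ = Real.exp (s * (ε / (2 * (s + 1)) * L n)) := by
        rw [Finset.prod_const, Finset.card_univ, Fintype.card_fin, ← Real.exp_nat_mul]
      _ ≤ Real.exp (ε / 2 * L n) := by
        refine Real.exp_le_exp.2 ?_
        have h9 : (s : ℝ) * (ε / (2 * (s + 1)) * L n) = (s / (s + 1)) * (ε / 2 * L n) := by
          field_simp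
        rw [h9]
        refine mul_le_of_le_one_left (by positivity) ?_
        rw [div_le_one hs1]
        linarith
  have h9 : Real.exp (ε * L n) = Real.exp (ε / 2 * L n) * Real.exp (ε / 2 * L n) := by
    rw [← Real.exp_add]
    ring_nf
  have hE2 : 1 ≤ Real.exp (ε / 2 * L n) := Real.one_le_exp (by positivity)
  have hden : (0 : ℝ) < (a n).den := by exact_mod_cast (a n).den_pos
  have hnum : |((a n).num : ℝ)| = av b none (a n) * (a n).den := by
    simp only [av]
    have h10 : ((a n : ℚ) : ℝ) = ((a n).num : ℝ) / (a n).den := by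
      exact_mod_cast (Rat.num_div_den (a n)).symm
    rw [h10, abs_div, abs_of_pos hden, div_mul_cancel₀ _ hden.ne']
  rcases lt_max_iff.1 h4 with h10 | h10
  · rw [hnum, h9] at h10
    by_contra h11
    push Not at h11
    have h12 : av b none (a n) * (a n).den ≤ Real.exp (ε / 2 * L n) * Real.exp (ε / 2 * L n) :=
      mul_le_mul h11.le h8 hden.le (Real.exp_pos _).le
    linarith
  · exfalso
    rw [h9] at h10
    have h11 : |(((a n).den : ℤ) : ℝ)| = (a n).den := by
      push_cast
      exact abs_of_pos hden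
    rw [h11] at h10
    nlinarith

end Pool.Agent.TH712.HG
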