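import Mathlib
import Pool.Agent.TH712.HG.Grow

/-!
# The inequality of Davenport for S-unit germs, with a gain

The part of the Wronskian in the class of 1 vanishes, all its other parts are large.
-/

set_option autoImplicit false
set_option linter.unusedSectionVars false
set_option linter.unusedVariables false

namespace Pool.Agent.TH712.HG

open Filter Topology Pool.Agent.TH932.Germs Pool.Agent.TH551.SU Pool.Agent.TH551.ZP
open Pool.Agent.TH551.SU.CRV Pool.Agent.TH551.HA

variable {s : ℕ} {b : Fin s → ℕ} {L : ℕ → ℝ} {r : ℕ} {hL : Tendsto L atTop atTop}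

section mono

variable {U : Fin r → GG} {l : Fin r → ℕ} {d : ℕ}

/-- a nonzero coefficient of a lift is a monomial times an element of the negligible field -/
lemma coeff_mono (hb : ∀ v, (b v).Prime) (hs : Setup b hL U l d) {e : ℕ} (he : e ≤ d)
    {p : Polynomial GG} (hp : Lift hL U l e p) (k : ℕ) (hk : p.coeff k ≠ 0) :
    ∃ β : Fin r → ℕ, ∑ j, β j = e ∧ ∑ j, β j * l j = k ∧
      ∃ κ ∈ KK L hL, κ ≠ 0 ∧ ∏ j, U j ^ (β j) = κ * p.coeff k := by
  obtain ⟨P, hP, rfl⟩ := hp
  obtain ⟨β, hβ, hβk⟩ : ∃ β ∈ P.support, ∑ j, β j * l j = k := by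
    by_contra hno
    push Not at hno
    apply hk
    rw [psi_coeff, Finset.filter_false_of_mem hno, Finset.sum_empty]
  set g : GG := ∏ j, U j ^ (β j) with hg
  have hg0 : g ≠ 0 := GSU.ne_zero hb (hs.mono_gsu hb β)
  have key : (psi hL U l P).coeff k / g ∈ KK L hL := by
    rw [psi_coeff, Finset.sum_div]
    refine sum_mem fun α hα => ?_
    rw [mul_div_assoc]
    refine mul_mem (MvPolynomial.coeff α P).2 ?_
    rw [Finset.mem_filter] at hα
    refine (hs.fw α β ?_ ?_).2 ?_
    · rw [deg_of_hom hP hα.1, deg_of_hom hP hβ]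
    · rw [deg_of_hom hP hα.1]
      exact he
    · rw [hα.2, hβk]
  refine ⟨β, deg_of_hom hP hβ, hβk, ((psi hL U l P).coeff k / g)⁻¹, (KK L hL).inv_mem key,
    inv_ne_zero (div_ne_zero hk hg0), ?_⟩
  rw [inv_div, div_mul_cancel₀ _ hk]

end mono

variable {U : Fin (r + 1) → GG} {l : Fin (r + 1) → ℕ} {d : ℕ}

/-- a monomial in the class of 1 has the weight of 1 -/
lemma weight_of_KK (hs : Setup b hL U l d) (hU0 : U 0 = 1) {β : Fin (r + 1) → ℕ} {e : ℕ}
    (he : e ≤ d) (hβ : ∑ j, β j = e) (hK : ∏ j, U j ^ (β j) ∈ KK L hL) :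
    ∑ j, β j * l j = e * l 0 := by
  classical
  have h1 : ∏ j, U j ^ ((Pi.single 0 e : Fin (r + 1) → ℕ) j) = 1 := by
    rw [Finset.prod_eq_single 0]
    · rw [Pi.single_eq_same, hU0, one_pow]
    · intro j _ hj
      rw [Pi.single_eq_of_ne hj, pow_zero]
    · intro h
      exact absurd (Finset.mem_univ _) h
  have h2 : ∑ j, (Pi.single 0 e : Fin (r + 1) → ℕ) j = e := by
    rw [Finset.sum_pi_single']
    simp
  have h3 : ∑ j, (Pi.single 0 e : Fin (r + 1) → ℕ) j * l j = e * l 0 := by
    rw [Finset.sum_eq_single 0]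
    · rw [Pi.single_eq_same]
    · intro j _ hj
      rw [Pi.single_eq_of_ne hj, zero_mul]
    · intro h
      exact absurd (Finset.mem_univ _) h
  have h4 := (hs.fw β (Pi.single 0 e) (by rw [hβ, h2]) (by rw [hβ]; exact he)).1 (by
    rw [h1, div_one]
    exact hK)
  rw [h4, h3]

/-- a monomial of the weight of 1 is in the class of 1 -/
lemma KK_of_weight (hs : Setup b hL U l d) (hU0 : U 0 = 1) {β : Fin (r + 1) → ℕ} {e : ℕ}
    (he : e ≤ d) (hβ : ∑ j, β j = e) (hw : ∑ j, β j * l j = e * l 0) :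
    ∏ j, U j ^ (β j) ∈ KK L hL := by
  classical
  have h1 : ∏ j, U j ^ ((Pi.single 0 e : Fin (r + 1) → ℕ) j) = 1 := by
    rw [Finset.prod_eq_single 0]
    · rw [Pi.single_eq_same, hU0, one_pow]
    · intro j _ hj
      rw [Pi.single_eq_of_ne hj, pow_zero]
    · intro h
      exact absurd (Finset.mem_univ _) h
  have h2 : ∑ j, (Pi.single 0 e : Fin (r + 1) → ℕ) j = e := by
    rw [Finset.sum_pi_single']
    simp
  have h3 : ∑ j, (Pi.single 0 e : Fin (r + 1) → ℕ) j * l j = e * l 0 := by
    rw [Finset.sum_eq_single 0]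
    · rw [Pi.single_eq_same]
    · intro j _ hj
      rw [Pi.single_eq_of_ne hj, zero_mul]
    · intro h
      exact absurd (Finset.mem_univ _) h
  have h4 := (hs.fw β (Pi.single 0 e) (by rw [hβ, h2]) (by rw [hβ]; exact he)).2 (by
    rw [hw, h3])
  rwa [h1, div_one] at h4

/-- no cancellation of growth: the parts of opposite classes do not both occur -/
lemma coeff_prod_zero (hnc : NcStmt) (hb : ∀ v, (b v).Prime) (hbi : Function.Injective b)
    (hs : Setup b hL U l d) (hd : 2 ≤ d) (hU0 : U 0 = 1) {X Y : Polynomial GG}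
    (hX : Lift hL U l 1 X) (hY : Lift hL U l 1 Y) (hxi : Ing b L (X.eval 1))
    (hyi : Ing b L (Y.eval 1)) {i j : ℕ} (hij : i + j = 2 * l 0) (hi : i ≠ l 0) :
    X.coeff i * Y.coeff j = 0 := by
  by_contra hne
  obtain ⟨hXi, hYj⟩ := mul_ne_zero_iff.1 hne
  obtain ⟨β, hβ1, hβi, κ, hκ, hκ0, hg⟩ := coeff_mono hb hs (by omega) hX i hXi
  obtain ⟨γ, hγ1, hγj, κ', hκ', hκ0', hg'⟩ := coeff_mono hb hs (by omega) hY j hYj
  set g : GG := ∏ j, U j ^ (β j) with hgd
  set g' : GG := ∏ j, U j ^ (γ j) with hgd'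
  have hprod : g * g' ∈ KK L hL := by
    have h1 : g * g' = ∏ j, U j ^ ((β + γ) j) := by
      rw [hgd, hgd', ← Finset.prod_mul_distrib]
      exact Finset.prod_congr rfl fun j _ => by rw [Pi.add_apply, pow_add]
    rw [h1]
    refine KK_of_weight hs hU0 hd ?_ ?_
    · simp only [Pi.add_apply]
      rw [Finset.sum_add_distrib, hβ1, hγ1]
    · simp only [Pi.add_apply, add_mul]
      rw [Finset.sum_add_distrib, hβi, hγj]
      exact hij
  have hgK : g ∉ KK L hL := by
    intro h
    have h1 := weight_of_KK hs hU0 (by omega) hβ1 h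
    rw [hβi, one_mul] at h1
    exact hi h1
  have hgK' : g' ∉ KK L hL := by
    intro h
    have h1 := weight_of_KK hs hU0 (by omega) hγ1 h
    rw [hγj, one_mul] at h1
    omega
  have hdg : ∀ v : Fin s, Dom b L (some v) g 1 := by
    intro v
    rw [hg]
    exact Dom.smul hb hbi hL hκ (Dom.trans hb (hX.dom hnc hb hbi hs (by omega) (some v) i)
      (hxi v))
  have hdg' : ∀ v : Fin s, Dom b L (some v) g' 1 := by
    intro v
    rw [hg']
    exact Dom.smul hb hbi hL hκ' (Dom.trans hb (hY.dom hnc hb hbi hs (by omega) (some v) j)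
      (hyi v))
  obtain ⟨δ, hδ, h1⟩ := grow hb hbi hL (hs.mono_gsu hb β) hgK hdg
  obtain ⟨δ', hδ', h2⟩ := grow hb hbi hL (hs.mono_gsu hb γ) hgK' hdg'
  have h3 := Dom.of_KK hb hbi hL none hprod δ hδ
  obtain ⟨n, h1, h2, h3, h4, h5, h6⟩ :=
    (h1.and (h2.and (h3.and ((rep_mul g g').and (rep_one.and (two_le_exp hL hδ')))))).exists
  rw [h4, h5, av_mul hb, av_one hb, mul_one] at h3
  have h7 : Real.exp (δ * L n) * Real.exp (δ' * L n) ≤
      av b none (rep g n) * av b none (rep g' n) :=
    mul_le_mul h1 h2 (Real.exp_pos _).le (av_nonneg hb _ _)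
  nlinarith [Real.exp_pos (δ * L n)]

lemma coeff_two {k : ℕ} {X Y : Polynomial GG} (h : ∀ i j : ℕ, i + j = 2 * k → i ≠ k → X.coeff i * Y.coeff j = 0) :
    (X * Y).coeff (2 * k) = X.coeff k * Y.coeff k := by
  classical
  rw [Polynomial.coeff_mul, Finset.sum_eq_single (k, k)]
  · intro p hp hpk
    rw [Finset.HasAntidiagonal.mem_antidiagonal] at hp
    refine h _ _ hp ?_
    intro h1
    apply hpk
    ext
    · exact h1
    · simp only
      omega
  · intro h1
    exfalso
    apply h1
    rw [Finset.HasAntidiagonal.mem_antidiagonal]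
    simp only
    omega

/-- **the inequality of Davenport, for germs, with a gain** -/
theorem hallGerm' (hnc : NcStmt) (hcs : CSStmt) (hb : ∀ v, (b v).Prime)
    (hbi : Function.Injective b) (hs : Setup b hL U l d) (hU0 : U 0 = 1) (m n : ℕ)
    (hd : m + n + 5 ≤ d) (X Y : Polynomial GG) (hX : Lift hL U l 1 X) (hY : Lift hL U l 1 Y)
    (hxi : Ing b L (X.eval 1)) (hyi : Ing b L (Y.eval 1))
    (hne : Y.eval 1 ^ (n + 1) - X.eval 1 ^ (m + 1) ≠ 0) :
    (∃ δ : ℝ, 0 < δ ∧ ∀ᶠ t in (UU : Filter ℕ), Real.exp (δ * L t) *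
        av b none (rep (Y.eval 1 ^ n) t) ≤
      av b none (rep (X.eval 1 * (Y.eval 1 ^ (n + 1) - X.eval 1 ^ (m + 1))) t)) ∨
      Dom b L none (X.eval 1 ^ (m + 1)) (Y.eval 1 ^ (n + 1) - X.eval 1 ^ (m + 1)) := by
  classical
  set E : Polynomial GG := Polynomial.X ^ (l 0) with hE
  have hEL : Lift hL U l 1 E := by
    have h := Lift.gen (hL := hL) (U := U) (l := l) 0
    rw [hU0, Polynomial.C_1, one_mul] at h
    exact h
  have hE1 : E.eval 1 = 1 := by rw [hE]; simp
  set A : Polynomial GG := E ^ (m + 1) * Y ^ (n + 1) with hA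
  set B : Polynomial GG := E ^ (n + 1) * X ^ (m + 1) with hB
  have hAL : Lift hL U l (m + n + 2) A := by
    have h := (hEL.pow (m + 1)).mul (hY.pow (n + 1))
    have h1 : 1 * (m + 1) + 1 * (n + 1) = m + n + 2 := by ring
    rwa [h1] at h
  have hBL : Lift hL U l (m + n + 2) B := by
    have h := (hEL.pow (n + 1)).mul (hX.pow (m + 1))
    have h1 : 1 * (n + 1) + 1 * (m + 1) = m + n + 2 := by ring
    rwa [h1] at h
  have hDL : Lift hL U l (m + n + 2) (A - B) := hAL.sub hBL
  -- the Wronskian without its obvious factors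
  set ω : Polynomial GG := Polynomial.C ((m : GG) - n) * (th E * X * Y) +
    Polynomial.C ((n : GG) + 1) * (E * X * th Y) - Polynomial.C ((m : GG) + 1) * (E * Y * th X)
    with hω
  have hωL : Lift hL U l 3 ω := by
    have h1 : Lift hL U l 3 (th E * X * Y) := (hEL.th.mul hX).mul hY
    have h2 : Lift hL U l 3 (E * X * th Y) := (hEL.mul hX).mul hY.th
    have h3 : Lift hL U l 3 (E * Y * th X) := (hEL.mul hY).mul hX.th
    refine ((h1.smul ?_).add (h2.smul ?_)).sub (h3.smul ?_)
    · exact sub_mem (natCast_mem _ m) (natCast_mem _ n)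
    · exact add_mem (natCast_mem _ n) (one_mem _)
    · exact add_mem (natCast_mem _ m) (one_mem _)
  -- its part in the class of 1 vanishes
  have hω3 : ω.coeff (3 * l 0) = 0 := by
    have hXY : ∀ i j : ℕ, i + j = 2 * l 0 → i ≠ l 0 → X.coeff i * Y.coeff j = 0 :=
      fun i j hij hi => coeff_prod_zero hnc hb hbi hs (by omega) hU0 hX hY hxi hyi hij hi
    have h0 : 3 * l 0 = 2 * l 0 + l 0 := by ring
    have hthE : th E = Polynomial.C (l 0 : GG) * Polynomial.X ^ (l 0) := by
      have h2 := th_monomial (1 : GG) (l 0)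
      rw [Polynomial.C_1, one_mul, mul_one] at h2
      rw [hE, h2]
    have e1 : (th E * X * Y).coeff (3 * l 0) = (l 0 : GG) * (X.coeff (l 0) * Y.coeff (l 0)) := by
      have h1 : th E * X * Y = Polynomial.C (l 0 : GG) * ((X * Y) * Polynomial.X ^ (l 0)) := by
        rw [hthE]
        ring
      rw [h1, Polynomial.coeff_C_mul, h0, Polynomial.coeff_mul_X_pow,
        coeff_two hXY]
    have e2 : (E * X * th Y).coeff (3 * l 0) =
        (l 0 : GG) * (X.coeff (l 0) * Y.coeff (l 0)) := by
      have h1 : E * X * th Y = (X * th Y) * Polynomial.X ^ (l 0) := by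
        rw [hE]
        ring
      rw [h1, h0, Polynomial.coeff_mul_X_pow, coeff_two, th_coeff]
      · ring
      · intro i j hij hi
        rw [th_coeff, mul_left_comm, hXY i j hij hi, mul_zero]
    have e3 : (E * Y * th X).coeff (3 * l 0) =
        (l 0 : GG) * (X.coeff (l 0) * Y.coeff (l 0)) := by
      have h1 : E * Y * th X = (th X * Y) * Polynomial.X ^ (l 0) := by
        rw [hE]
        ring
      rw [h1, h0, Polynomial.coeff_mul_X_pow, coeff_two, th_coeff]
      · ring
      · intro i j hij hi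
        rw [th_coeff, mul_assoc, hXY i j hij hi, mul_zero]
    rw [hω, Polynomial.coeff_sub, Polynomial.coeff_add, Polynomial.coeff_C_mul,
      Polynomial.coeff_C_mul, Polynomial.coeff_C_mul, e1, e2, e3]
    ring
  have hthA : th A = (m + 1 : ℕ) * E ^ m * th E * Y ^ (n + 1) +
      E ^ (m + 1) * ((n + 1 : ℕ) * Y ^ n * th Y) := by
    rw [hA, th_mul, th_pow, th_pow]
  have hthB : th B = (n + 1 : ℕ) * E ^ n * th E * X ^ (m + 1) +
      E ^ (n + 1) * ((m + 1 : ℕ) * X ^ m * th X) := by
    rw [hB, th_mul, th_pow, th_pow]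
  have hid : E * X * th (A - B) - (A - B) * (Polynomial.C ((n : GG) + 1) * th E * X +
      Polynomial.C ((m : GG) + 1) * E * th X) = E ^ (m + 1) * Y ^ n * ω := by
    rw [th_sub, hthA, hthB, hω, hA, hB]
    simp only [Polynomial.C_add, Polynomial.C_sub, Polynomial.C_1, map_natCast]
    push_cast
    ring
  set x := X.eval 1 with hx
  set y := Y.eval 1 with hy
  set D : GG := y ^ (n + 1) - x ^ (m + 1) with hD
  have hD1 : (A - B).eval 1 = D := by
    rw [hA, hB, hD, hx, hy]
    simp [hE1]
  -- the identity at 1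
  have hid1 : y ^ n * ω.eval 1 = x * (th (A - B)).eval 1 -
      D * (((n : GG) + 1) * (th E).eval 1 * x + ((m : GG) + 1) * (th X).eval 1) := by
    have h := congrArg (Polynomial.eval 1) hid
    simp only [Polynomial.eval_sub, Polynomial.eval_mul, Polynomial.eval_add, Polynomial.eval_pow,
      Polynomial.eval_C, hE1, one_pow, one_mul, mul_one] at h
    rw [← h, ← hD1]
    simp only [Polynomial.eval_sub]
    rfl
  have hthE : (th E).eval 1 ∈ KK L hL := by
    have h1 : (th E).eval 1 = (l 0 : GG) := by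
      have h2 := th_monomial (1 : GG) (l 0)
      rw [Polynomial.C_1, one_mul] at h2
      rw [hE, h2]
      simp
    rw [h1]
    exact natCast_mem _ _
  -- the left side is dominated
  have hdom : Dom b L none (y ^ n * ω.eval 1) (x * D) := by
    rw [hid1]
    have h1 : Dom b L none (x * (th (A - B)).eval 1) (x * D) := by
      refine Dom.mul hb (Dom.refl hb hL _ _) ?_
      have h := hDL.th_dom hnc hb hbi hs (by omega) none
      rwa [hD1] at h
    have h2 : Dom b L none (((n : GG) + 1) * (th E).eval 1 * x + ((m : GG) + 1) * (th X).eval 1)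
        x := by
      refine Dom.add hb hL ?_ ?_
      · exact Dom.smul hb hbi hL (mul_mem (add_mem (natCast_mem _ n) (one_mem _)) hthE)
          (Dom.refl hb hL _ _)
      · exact Dom.smul hb hbi hL (add_mem (natCast_mem _ m) (one_mem _))
          (hX.th_dom hnc hb hbi hs (by omega) none)
    refine Dom.sub hb hL h1 ?_
    rw [mul_comm x D]
    exact Dom.mul hb (Dom.refl hb hL _ _) h2
  -- the factor at all places
  have hωdom : ∀ v, Dom b L v (ω.eval 1) (x * y) := by
    intro v
    rw [hω]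
    simp only [Polynomial.eval_sub, Polynomial.eval_mul, Polynomial.eval_add, Polynomial.eval_C,
      hE1, one_mul]
    refine Dom.sub hb hL (Dom.add hb hL ?_ ?_) ?_
    · refine Dom.smul hb hbi hL (sub_mem (natCast_mem _ m) (natCast_mem _ n)) ?_
      rw [mul_assoc]
      exact Dom.smul hb hbi hL hthE (Dom.refl hb hL _ _)
    · refine Dom.smul hb hbi hL (add_mem (natCast_mem _ n) (one_mem _)) ?_
      exact Dom.mul hb (Dom.refl hb hL _ _) (hY.th_dom hnc hb hbi hs (by omega) v)
    · refine Dom.smul hb hbi hL (add_mem (natCast_mem _ m) (one_mem _)) ?_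
      rw [mul_comm x y]
      exact Dom.mul hb (Dom.refl hb hL _ _) (hX.th_dom hnc hb hbi hs (by omega) v)
  by_cases hω0 : ω.eval 1 = 0
  · -- the Wronskian vanishes
    right
    have h1 : ω = 0 := hωL.eq_zero hcs hb hbi hs (by omega) hω0
    by_cases hB0 : B = 0
    · have h2 : x ^ (m + 1) = 0 := by
        have h3 := congrArg (Polynomial.eval 1) hB0
        rw [hB] at h3
        simpa [hE1, ← hx] using h3
      rw [h2]
      exact Dom.zero hb hL _ _
    -- A and B are proportional
    have hWid : th A * B - A * th B = E ^ (m + n + 1) * X ^ m * Y ^ n * ω := by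
      rw [hthA, hthB, hω, hA, hB]
      simp only [Polynomial.C_add, Polynomial.C_sub, Polynomial.C_1, map_natCast]
      push_cast
      ring
    have hW : Polynomial.derivative A * B = A * Polynomial.derivative B := by
      rw [h1, mul_zero] at hWid
      unfold th at hWid
      have h2 : Polynomial.X * (Polynomial.derivative A * B - A * Polynomial.derivative B) =
          0 := by
        linear_combination hWid
      exact sub_eq_zero.1 ((mul_eq_zero.1 h2).resolve_left Polynomial.X_ne_zero)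
    obtain ⟨κ, hκ⟩ := prop_of_wr A B hB0 hW
    have hlc : B.coeff B.natDegree ≠ 0 := Polynomial.leadingCoeff_ne_zero.2 hB0
    have hκK : κ ∈ KK L hL := by
      have h2 := Lift.coeff_div hb hs (by omega) hAL hBL B.natDegree hlc
      rw [hκ, Polynomial.coeff_C_mul, mul_div_assoc, div_self hlc, mul_one] at h2
      exact h2
    have hD2 : D = (κ - 1) * x ^ (m + 1) := by
      rw [← hD1, hκ, hB]
      simp only [Polynomial.eval_sub, Polynomial.eval_mul, Polynomial.eval_pow, Polynomial.eval_C,
        hE1, one_pow, one_mul, ← hx]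
      ring
    have hκ1 : κ - 1 ≠ 0 := by
      intro h2
      rw [h2, zero_mul] at hD2
      exact hne hD2
    rw [hD2]
    have h3 := Dom.mul hb (Dom.one_of_KK hb hbi hL none (sub_mem hκK (one_mem _)) hκ1)
      (Dom.refl hb hL none (x ^ (m + 1)))
    rwa [one_mul] at h3
  · left
    -- a part of the Wronskian is large at infinity
    obtain ⟨i, hi⟩ : ∃ i, ω.coeff i ≠ 0 := by
      by_contra hno
      push Not at hno
      apply hω0
      have h1 : ω = 0 := Polynomial.ext fun i => by rw [hno i, Polynomial.coeff_zero]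
      rw [h1, Polynomial.eval_zero]
    obtain ⟨β, hβ3, hβi, κ, hκ, hκ0, hg⟩ := coeff_mono hb hs (by omega) hωL i hi
    have hgK : ∏ j, U j ^ (β j) ∉ KK L hL := by
      intro h
      have h1 := weight_of_KK hs hU0 (by omega) hβ3 h
      rw [hβi] at h1
      rw [h1] at hi
      exact hi hω3
    have hgd : ∀ v, Dom b L v (∏ j, U j ^ (β j)) (ω.eval 1) := by
      intro v
      rw [hg]
      exact Dom.smul hb hbi hL hκ (hωL.dom hnc hb hbi hs (by omega) v i)
    obtain ⟨δ, hδ, h1⟩ := grow hb hbi hL (hs.mono_gsu hb β) hgK fun v => by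
      have h5 := Dom.mul hb (hxi v) (hyi v)
      rw [one_mul] at h5
      exact Dom.trans hb (hgd (some v)) (Dom.trans hb (hωdom (some v)) h5)
    refine ⟨δ / 2, by positivity, ?_⟩
    have h2 := Dom.mul hb (Dom.refl hb hL none (y ^ n)) (hgd none)
    have h3 := Dom.trans hb h2 hdom
    filter_upwards [h1, h3 (δ / 2) (by positivity), rep_mul (y ^ n) (∏ j, U j ^ (β j))]
      with t h4 h5 h6
    rw [h6, av_mul hb] at h5
    have h7 : Real.exp (δ * L t) = Real.exp (δ / 2 * L t) * Real.exp (δ / 2 * L t) := by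
      rw [← Real.exp_add]
      ring_nf
    rw [h7] at h4
    have h8 := av_nonneg hb none (rep (y ^ n) t)
    have h9 : Real.exp (δ / 2 * L t) * (Real.exp (δ / 2 * L t) * av b none (rep (y ^ n) t)) ≤
        Real.exp (δ / 2 * L t) * av b none (rep (x * D) t) := by
      calc Real.exp (δ / 2 * L t) * (Real.exp (δ / 2 * L t) * av b none (rep (y ^ n) t)) =
          av b none (rep (y ^ n) t) * (Real.exp (δ / 2 * L t) * Real.exp (δ / 2 * L t)) := by
            ring
        _ ≤ av b none (rep (y ^ n) t) * av b none (rep (∏ j, U j ^ (β j)) t) :=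
            mul_le_mul_of_nonneg_left h4 h8
        _ ≤ Real.exp (δ / 2 * L t) * av b none (rep (x * D) t) := h5
    exact le_of_mul_le_mul_left h9 (Real.exp_pos _)

end Pool.Agent.TH712.HG
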