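import Mathlib
import Pool.Agent.TH712.HG.Germ
import Pool.Agent.TH551.HA.Fin

/-!
# The inequality of Hall for sums of S-units, with a gain in the exponent
-/

set_option autoImplicit false
set_option linter.unusedSectionVars false
set_option linter.unusedVariables false

namespace Pool.Agent.TH712.HG

open Filter Topology Pool.Agent.TH932.Germs Pool.Agent.TH551.SU Pool.Agent.TH551.ZP
open Pool.Agent.TH551.SU.CRV Pool.Agent.TH551.SU.Ht Pool.Agent.TH551.HA

/-- the real arithmetic at the end -/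
lemma arith' (m n : ℕ) (c0 e δ L x y D : ℝ) (hδ : 0 < δ)
    (hc0 : c0 = 1 / ((m : ℝ) + 1) + 1 / ((n : ℝ) + 1))
    (he0 : 0 ≤ e) (he1 : e ≤ δ / 4) (he2 : e ≤ c0 / 4) (hx0 : 0 ≤ x) (hy0 : 0 ≤ y)
    (hD1 : 1 ≤ D) (hmax : max (x ^ (m + 1)) (y ^ (n + 1)) = Real.exp L)
    (hD : |y ^ (n + 1) - x ^ (m + 1)| ≤ D)
    (hlt : Real.log D < (1 - 1 / ((m : ℝ) + 1) - 1 / ((n : ℝ) + 1) + e) * L)
    (hbig : 2 * Real.log 2 < δ * L) (hbig2 : 2 * Real.log 2 < c0 / 4 * L) (hL : 0 ≤ L)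
    (h : Real.exp (δ * L) * y ^ n ≤ x * D ∨ x ^ (m + 1) ≤ Real.exp (c0 / 4 * L) * D) :
    False := by
  have hm1 : (0 : ℝ) < (m : ℝ) + 1 := by positivity
  have hn1 : (0 : ℝ) < (n : ℝ) + 1 := by positivity
  have hlog2 : 0 < Real.log 2 := Real.log_pos (by norm_num)
  have hDe : D = Real.exp (Real.log D) := (Real.exp_log (by linarith)).symm
  have hc0p : 0 < c0 := by rw [hc0]; positivity
  have hlt' : Real.log D < (1 - c0 + e) * L := by
    have : 1 - c0 + e = 1 - 1 / ((m : ℝ) + 1) - 1 / ((n : ℝ) + 1) + e := by rw [hc0]; ring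
    rw [this]
    exact hlt
  have heL : e * L ≤ c0 / 4 * L := mul_le_mul_of_nonneg_right he2 hL
  have heL1 : e * L ≤ δ / 4 * L := mul_le_mul_of_nonneg_right he1 hL
  -- `D` is small
  have hD2 : D ≤ Real.exp L / 2 := by
    rw [hDe]
    have h1 : Real.exp L / 2 = Real.exp (L - Real.log 2) := by
      rw [Real.exp_sub, Real.exp_log (by norm_num)]
    rw [h1]
    refine Real.exp_le_exp.2 ?_
    nlinarith
  have hxle : x ^ (m + 1) ≤ Real.exp L := by rw [← hmax]; exact le_max_left _ _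
  have hyle : y ^ (n + 1) ≤ Real.exp L := by rw [← hmax]; exact le_max_right _ _
  have habs := abs_le.1 hD
  have hxge : Real.exp L / 2 ≤ x ^ (m + 1) := by
    rcases max_choice (x ^ (m + 1)) (y ^ (n + 1)) with h1 | h1
    · rw [← h1, hmax]
      linarith [Real.exp_pos L]
    · rw [h1] at hmax
      linarith [habs.2]
  have hyge : Real.exp L / 2 ≤ y ^ (n + 1) := by
    rcases max_choice (x ^ (m + 1)) (y ^ (n + 1)) with h1 | h1
    · rw [h1] at hmax
      linarith [habs.1]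
    · rw [← h1, hmax]
      linarith [Real.exp_pos L]
  have hxpos : 0 < x := by
    rcases hx0.eq_or_lt with h1 | h1
    · rw [← h1, zero_pow (by omega)] at hxge
      linarith [Real.exp_pos L]
    · exact h1
  have hypos : 0 < y := by
    rcases hy0.eq_or_lt with h1 | h1
    · rw [← h1, zero_pow (by omega)] at hyge
      linarith [Real.exp_pos L]
    · exact h1
  have e1 : Real.exp L / 2 = Real.exp (L - Real.log 2) := by
    rw [Real.exp_sub, Real.exp_log (by norm_num)]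
  have lx : (m + 1 : ℝ) * Real.log x ≤ L := by
    have h1 := Real.log_le_log (pow_pos hxpos _) hxle
    rw [Real.log_exp, Real.log_pow] at h1
    exact_mod_cast h1
  have lx' : L - Real.log 2 ≤ (m + 1 : ℝ) * Real.log x := by
    rw [e1] at hxge
    have h1 := Real.log_le_log (Real.exp_pos _) hxge
    rw [Real.log_exp, Real.log_pow] at h1
    exact_mod_cast h1
  have ly' : L - Real.log 2 ≤ (n + 1 : ℝ) * Real.log y := by
    rw [e1] at hyge
    have h1 := Real.log_le_log (Real.exp_pos _) hyge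
    rw [Real.log_exp, Real.log_pow] at h1
    exact_mod_cast h1
  rcases h with h | h
  · have h1 := Real.log_le_log (mul_pos (Real.exp_pos _) (pow_pos hypos _)) h
    rw [Real.log_mul (Real.exp_pos _).ne' (pow_pos hypos _).ne', Real.log_pow, Real.log_exp,
      Real.log_mul hxpos.ne' (by linarith)] at h1
    -- multiply out
    have h2 : (L - Real.log 2) / ((n : ℝ) + 1) ≤ Real.log y := by
      rw [div_le_iff₀ hn1]
      linarith
    have h3 : Real.log x ≤ L / ((m : ℝ) + 1) := by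
      rw [le_div_iff₀ hm1]
      linarith
    have h4 : (n : ℝ) * ((L - Real.log 2) / ((n : ℝ) + 1)) ≤ n * Real.log y :=
      mul_le_mul_of_nonneg_left h2 (Nat.cast_nonneg n)
    have h5 : (n : ℝ) * ((L - Real.log 2) / ((n : ℝ) + 1)) =
        (L - Real.log 2) - (L - Real.log 2) * (1 / ((n : ℝ) + 1)) := by
      field_simp
      ring
    have h6 : L / ((m : ℝ) + 1) = 1 / ((m : ℝ) + 1) * L := by ring
    have h7 : 0 ≤ Real.log 2 * (1 / ((n : ℝ) + 1)) := by positivity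
    nlinarith
  · have h1 := Real.log_le_log (pow_pos hxpos _) h
    rw [Real.log_pow, Real.log_mul (Real.exp_pos _).ne' (by linarith), Real.log_exp] at h1
    push_cast at h1
    nlinarith

/-- **The inequality of Hall for sums of S-units, with a gain in the exponent.** -/
theorem hall' (hnc : NcStmt) (hcs : CSStmt) (hhb : HbStmt) (hfw : FwStmt) (m n k : ℕ)
    (Γ : Subgroup ℚˣ) (hΓ : Γ.FG) :
    ∃ δ : ℝ, 0 < δ ∧ ∃ C : ℝ, ∀ M : ℝ, 1 ≤ M → ∀ (u : Fin k → Γ) (a c : Fin k → ℤ),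
      (∀ j, |(a j : ℝ)| ≤ M) →
      (∀ j, |(c j : ℝ)| ≤ M) → ∀ x y : ℤ, (x : ℚ) = ∑ j, ((u j : ℚˣ) : ℚ) * a j →
      (y : ℚ) = ∑ j, ((u j : ℚˣ) : ℚ) * c j → y ^ (n + 1) ≠ x ^ (m + 1) →
      (1 - 1 / ((m : ℝ) + 1) - 1 / ((n : ℝ) + 1) + δ) *
          Real.log (max (|(x : ℝ)| ^ (m + 1)) (|(y : ℝ)| ^ (n + 1))) ≤
        C * (1 + Real.log M) + Real.log |(y : ℝ) ^ (n + 1) - (x : ℝ) ^ (m + 1)| := by
  classical
  obtain ⟨s, b, hb, hbi, hΓb⟩ := exists_base Γ hΓ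
  by_contra hcon
  push Not at hcon
  set e : ℕ → ℝ := fun t => 1 / ((t : ℝ) + m + 1) with he
  have he0 : ∀ t, 0 < e t := fun t => by rw [he]; positivity
  choose M hM u a c ha hc x y hx hy hne hlt using fun t : ℕ => hcon (e t) (he0 t) (t : ℝ)
  set L : ℕ → ℝ := fun t => Real.log (max (|(x t : ℝ)| ^ (m + 1)) (|(y t : ℝ)| ^ (n + 1)))
    with hLdef
  have hm1 : (0 : ℝ) < (m : ℝ) + 1 := by positivity
  have hn1 : (0 : ℝ) < (n : ℝ) + 1 := by positivity
  have hem : ∀ t, e t ≤ 1 / ((m : ℝ) + 1) := by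
    intro t
    rw [he]
    refine one_div_le_one_div_of_le hm1 ?_
    have : (0 : ℝ) ≤ (t : ℝ) := Nat.cast_nonneg t
    linarith
  have helim : Tendsto e atTop (nhds 0) := by
    have h1 : Tendsto (fun t : ℕ => (t : ℝ) + ((m : ℝ) + 1)) atTop atTop :=
      tendsto_atTop_add_const_right _ _ tendsto_natCast_atTop_atTop
    have h2 := h1.const_div_atTop 1
    refine h2.congr fun t => ?_
    rw [he]
    simp only
    rw [add_assoc]
  have hδ : 0 < 1 / ((m : ℝ) + 1) + 1 / ((n : ℝ) + 1) := by positivity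
  have hD1 : ∀ t, 1 ≤ |(y t : ℝ) ^ (n + 1) - (x t : ℝ) ^ (m + 1)| := by
    intro t
    have h1 : y t ^ (n + 1) - x t ^ (m + 1) ≠ 0 := sub_ne_zero.2 (hne t)
    exact_mod_cast Int.one_le_abs h1
  have hmax1 : ∀ t, 1 ≤ max (|(x t : ℝ)| ^ (m + 1)) (|(y t : ℝ)| ^ (n + 1)) := by
    intro t
    by_cases h : x t = 0
    · have h1 : y t ≠ 0 := by
        intro h2
        apply hne t
        rw [h, h2, zero_pow (by omega), zero_pow (by omega)]
      refine le_max_of_le_right (one_le_pow₀ ?_)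
      exact_mod_cast Int.one_le_abs h1
    · refine le_max_of_le_left (one_le_pow₀ ?_)
      exact_mod_cast Int.one_le_abs h
  have hL0 : ∀ t, 0 ≤ L t := fun t => Real.log_nonneg (hmax1 t)
  have hlM : ∀ t, 0 ≤ Real.log (M t) := fun t => Real.log_nonneg (hM t)
  have hlD : ∀ t, 0 ≤ Real.log |(y t : ℝ) ^ (n + 1) - (x t : ℝ) ^ (m + 1)| :=
    fun t => Real.log_nonneg (hD1 t)
  have hLt : ∀ t : ℕ, (t : ℝ) * (1 + Real.log (M t)) < L t := by
    intro t
    have h1 := hlt t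
    have h2 : (1 - 1 / ((m : ℝ) + 1) - 1 / ((n : ℝ) + 1) + e t) * L t ≤ L t := by
      have h3 : 0 ≤ (1 / ((m : ℝ) + 1) + 1 / ((n : ℝ) + 1) - e t) * L t := by
        refine mul_nonneg ?_ (hL0 t)
        have h4 := hem t
        have h5 : 0 < 1 / ((n : ℝ) + 1) := by positivity
        linarith
      nlinarith
    have h3 : (t : ℝ) * (1 + Real.log (M t)) +
        Real.log |(y t : ℝ) ^ (n + 1) - (x t : ℝ) ^ (m + 1)| <
        (1 - 1 / ((m : ℝ) + 1) - 1 / ((n : ℝ) + 1) + e t) * L t := h1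
    have h4 := hlD t
    linarith
  have hL : Tendsto L atTop atTop := by
    refine tendsto_atTop_mono (fun t => ?_) tendsto_natCast_atTop_atTop
    have h1 := hLt t
    have h2 : 0 ≤ (t : ℝ) * Real.log (M t) := mul_nonneg (Nat.cast_nonneg t) (hlM t)
    rw [mul_add, mul_one] at h1
    linarith
  -- the digits are negligible
  have hneg : ∀ z : ℕ → ℤ, (∀ t, |(z t : ℝ)| ≤ M t) → gm (fun t => (z t : ℚ)) ∈ KK L hL := by
    intro z hz
    refine ⟨z, fun _ => 1, ?_, Negl.one hL, by simp, by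
      congr 1
      funext t
      simp⟩
    intro ε' hε'
    have h1 : ∀ᶠ t : ℕ in atTop, 1 / ε' ≤ (t : ℝ) :=
      tendsto_natCast_atTop_atTop.eventually_ge_atTop _
    refine ev_of_atTop (h1.mono fun t ht => ?_)
    refine (hz t).trans ?_
    rw [← Real.exp_log (show 0 < M t by linarith [hM t])]
    refine Real.exp_le_exp.2 ?_
    have h2 := hLt t
    have h3 : 1 / ε' * Real.log (M t) ≤ (t : ℝ) * (1 + Real.log (M t)) := by
      have h5 : (0 : ℝ) ≤ t := Nat.cast_nonneg t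
      nlinarith [mul_le_mul_of_nonneg_right ht (hlM t)]
    have h5 : 1 / ε' * Real.log (M t) ≤ L t := h3.trans h2.le
    rw [one_div, inv_mul_le_iff₀ hε'] at h5
    exact h5
  -- integers bounded by a power of exp L
  have hintle : ∀ z : ℕ → ℤ, (∀ t, |(z t : ℝ)| ≤ Real.exp (L t)) → ∀ t, ∀ v,
      av b v (z t : ℚ) ≤ Real.exp (1 * L t) := by
    intro z hz t v
    rw [one_mul]
    cases v with
    | none =>
      simp only [av]
      push_cast
      exact hz t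
    | some w =>
      have := Fact.mk (hb w)
      have h1 : av b (some w) (z t : ℚ) ≤ 1 := by
        simp only [av]
        exact_mod_cast padicNorm.of_int (p := b w) (z t)
      exact h1.trans (Real.one_le_exp (hL0 t))
  have hpowle : ∀ (z : ℤ) (e : ℕ) (B : ℝ), 1 ≤ B → |(z : ℝ)| ^ (e + 1) ≤ B → |(z : ℝ)| ≤ B := by
    intro z e B hB hz
    by_cases h0 : z = 0
    · rw [h0, Int.cast_zero, abs_zero]
      linarith
    · have h1 : (1 : ℝ) ≤ |(z : ℝ)| := by exact_mod_cast Int.one_le_abs h0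
      exact (le_self_pow₀ h1 (by omega)).trans hz
  have hexpL : ∀ t, Real.exp (L t) = max (|(x t : ℝ)| ^ (m + 1)) (|(y t : ℝ)| ^ (n + 1)) :=
    fun t => Real.exp_log (by linarith [hmax1 t])
  have hxle : ∀ t, |(x t : ℝ)| ≤ Real.exp (L t) := fun t =>
    hpowle _ m _ (Real.one_le_exp (hL0 t)) (by rw [hexpL]; exact le_max_left _ _)
  have hyle : ∀ t, |(y t : ℝ)| ≤ Real.exp (L t) := fun t =>
    hpowle _ n _ (Real.one_le_exp (hL0 t)) (by rw [hexpL]; exact le_max_right _ _)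
  -- the germs
  set V : Fin k → GG := fun j => gm (fun t => ((u t j : ℚˣ) : ℚ)) with hV
  have hVS : ∀ j, GSU b (V j) := fun j => ⟨_, rfl, fun t => hΓb _ (u t j).2⟩
  have hgerm : ∀ (z : ℕ → ℤ) (e : ℕ → Fin k → ℤ),
      (∀ t, (z t : ℚ) = ∑ j, ((u t j : ℚˣ) : ℚ) * e t j) →
      ∑ j, gm (fun t => (e t j : ℚ)) * V j = gm (fun t => (z t : ℚ)) := by
    intro z e hz
    have h1 : ∀ j, gm (fun t => (e t j : ℚ)) * V j =
        gm (fun t => ((u t j : ℚˣ) : ℚ) * e t j) := by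
      intro j
      rw [hV]
      simp only
      rw [gm_mul]
      congr 1
      funext t
      ring
    simp only [h1]
    rw [gm_sum']
    congr 1
    funext t
    rw [hz t]
  have hrepz : ∀ z : ℕ → ℤ, ∀ᶠ t in (UU : Filter ℕ), rep (gm (fun t => (z t : ℚ))) t = z t :=
    fun z => rep_gm _
  have hHB : ∀ (z : ℕ → ℤ) (e : ℕ → Fin k → ℤ),
      (∀ t, (z t : ℚ) = ∑ j, ((u t j : ℚˣ) : ℚ) * e t j) → (∀ t j, |(e t j : ℝ)| ≤ M t) →
      (∀ t, |(z t : ℝ)| ≤ Real.exp (L t)) →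
      ∃ (m' : ℕ) (u' : Fin m' → GG) (c' : Fin m' → KK L hL), (∀ i, GSU b (u' i)) ∧
        (∀ i, Mod b L (u' i)) ∧ ∑ j, (c' j : GG) * u' j = gm (fun t => (z t : ℚ)) := by
    intro z e hz he hzl
    have h1 := hhb s b hb hbi L hL k V hVS
      (fun j => ⟨gm (fun t => (e t j : ℚ)), hneg _ fun t => he t j⟩) 1 (by
        have h2 : ∑ j, ((⟨gm (fun t => (e t j : ℚ)), hneg _ fun t => he t j⟩ : KK L hL) : GG) *
            V j = gm (fun t => (z t : ℚ)) := hgerm z e hz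
        rw [h2]
        filter_upwards [hrepz z] with t ht v
        rw [ht]
        exact hintle z hzl t v)
    obtain ⟨m', u', c', h3, h4, h5⟩ := h1
    exact ⟨m', u', c', h3, h4, h5.trans (hgerm z e hz)⟩
  obtain ⟨m1, u1, c1, hu1, hu1', hs1⟩ := hHB x a hx ha hxle
  obtain ⟨m2, u2, c2, hu2, hu2', hs2⟩ := hHB y c hy hc hyle
  -- the combined family
  set W : Fin (m1 + m2 + 1) → GG := Fin.cons 1 (Fin.append u1 u2) with hW
  have hWall : ∀ (P : GG → Prop), P 1 → (∀ j, P (u1 j)) → (∀ j, P (u2 j)) → ∀ j, P (W j) := by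
    intro P h0 h1 h2 j
    rw [hW]
    refine Fin.cases ?_ (fun j => ?_) j
    · simpa using h0
    · rw [Fin.cons_succ]
      refine Fin.addCases (fun i => ?_) (fun i => ?_) j
      · rw [Fin.append_left]
        exact h1 i
      · rw [Fin.append_right]
        exact h2 i
  have hWg : ∀ j, GSU b (W j) := hWall _ GSU.one hu1 hu2
  have hWm : ∀ j, Mod b L (W j) := hWall _ (Mod.one hb hL) hu1' hu2'
  obtain ⟨l, hl⟩ := hfw L hL (m1 + m2) W (fun j => GSU.ne_zero hb (hWg j)) (m + n + 5)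
  have hs : Setup b hL W l (m + n + 5) := ⟨hWg, hWm, hl⟩
  obtain ⟨X, hX, hX1⟩ := exists_lift (hL := hL) W l (fun j : Fin m1 => (Fin.castAdd m2 j).succ) c1
  obtain ⟨Y, hY, hY1⟩ := exists_lift (hL := hL) W l (fun j : Fin m2 => (Fin.natAdd m1 j).succ) c2
  have hX2 : X.eval 1 = gm (fun t => (x t : ℚ)) := by
    rw [hX1, ← hs1]
    refine Finset.sum_congr rfl fun j _ => ?_
    rw [hW, Fin.cons_succ, Fin.append_left]
  have hY2 : Y.eval 1 = gm (fun t => (y t : ℚ)) := by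
    rw [hY1, ← hs2]
    refine Finset.sum_congr rfl fun j _ => ?_
    rw [hW, Fin.cons_succ, Fin.append_right]
  have hing : ∀ z : ℕ → ℤ, Ing b L (gm (fun t => (z t : ℚ))) := by
    intro z v
    rw [← gm_one, dom_gm]
    intro ε' hε'
    filter_upwards [L_nonneg hL] with t ht
    rw [av_one hb, mul_one]
    have := Fact.mk (hb v)
    have h1 : av b (some v) (z t : ℚ) ≤ 1 := by
      simp only [av]
      exact_mod_cast padicNorm.of_int (p := b v) (z t)
    exact h1.trans (Real.one_le_exp (by positivity))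
  have hDg : gm (fun t => (y t : ℚ)) ^ (n + 1) - gm (fun t => (x t : ℚ)) ^ (m + 1) =
      gm (fun t => (y t : ℚ) ^ (n + 1) - (x t : ℚ) ^ (m + 1)) := by
    rw [gm_pow, gm_pow, gm_sub]
  have key := hallGerm' hnc hcs hb hbi hs (by rw [hW]; rfl) m n le_rfl X Y hX hY
    (by rw [hX2]; exact hing x) (by rw [hY2]; exact hing y) (by
      rw [hX2, hY2, hDg, gm_ne_zero]
      refine Eventually.of_forall fun t => sub_ne_zero.2 ?_
      exact_mod_cast hne t)
  rw [hX2, hY2, hDg] at key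
  -- the final contradiction
  set c0 : ℝ := 1 / ((m : ℝ) + 1) + 1 / ((n : ℝ) + 1) with hc0
  have hbig : ∀ η : ℝ, 0 < η → ∀ᶠ t in (UU : Filter ℕ), 2 * Real.log 2 < η * L t := by
    intro η hη
    refine ev_of_atTop ?_
    filter_upwards [hL.eventually_gt_atTop (2 * Real.log 2 / η)] with t ht
    rw [div_lt_iff₀ hη] at ht
    linarith
  have hsmall : ∀ η : ℝ, 0 < η → ∀ᶠ t in (UU : Filter ℕ), e t ≤ η := by
    intro η hη
    refine ev_of_atTop ?_
    filter_upwards [helim.eventually_lt_const hη] with t ht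
    exact ht.le
  obtain ⟨δ, hδ0, hfin⟩ : ∃ δ : ℝ, 0 < δ ∧ ∀ᶠ t in (UU : Filter ℕ),
      Real.exp (δ * L t) * |(y t : ℝ)| ^ n ≤
      |(x t : ℝ)| * |(y t : ℝ) ^ (n + 1) - (x t : ℝ) ^ (m + 1)| ∨
      |(x t : ℝ)| ^ (m + 1) ≤ Real.exp (c0 / 4 * L t) *
        |(y t : ℝ) ^ (n + 1) - (x t : ℝ) ^ (m + 1)| := by
    rcases key with ⟨δ, hδ0, h⟩ | h
    · refine ⟨δ, hδ0, ?_⟩
      rw [gm_pow, gm_mul] at h
      filter_upwards [h, rep_gm (fun t => (y t : ℚ) ^ n),
        rep_gm (fun t => (x t : ℚ) * ((y t : ℚ) ^ (n + 1) - (x t : ℚ) ^ (m + 1)))] with t ht h1 h2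
      left
      rw [h1, h2, av_mul hb, av_pow hb] at ht
      simp only [av] at ht
      push_cast at ht
      exact ht
    · refine ⟨1, one_pos, ?_⟩
      rw [gm_pow, dom_gm] at h
      filter_upwards [h (c0 / 4) (by positivity)] with t ht
      right
      rw [av_pow hb] at ht
      simp only [av] at ht
      push_cast at ht
      exact ht
  obtain ⟨t, h1, h2, h3, h4, h5⟩ := ((hbig δ hδ0).and ((hbig (c0 / 4) (by positivity)).and
    ((hsmall (δ / 4) (by positivity)).and ((hsmall (c0 / 4) (by positivity)).and hfin)))).exists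
  refine arith' m n c0 (e t) δ (L t) |(x t : ℝ)| |(y t : ℝ)|
    |(y t : ℝ) ^ (n + 1) - (x t : ℝ) ^ (m + 1)| hδ0 hc0 (he0 t).le h3 h4 (abs_nonneg _)
    (abs_nonneg _) (hD1 t) (hexpL t).symm ?_ ?_ h1 h2 (hL0 t) h5
  · rw [← abs_pow, ← abs_pow]
    exact abs_abs_sub_abs_le _ _
  · have h3 := hlt t
    have h4 : 0 ≤ (t : ℝ) * (1 + Real.log (M t)) :=
      mul_nonneg (Nat.cast_nonneg t) (by linarith [hlM t])
    have h5 : (t : ℝ) * (1 + Real.log (M t)) +
        Real.log |(y t : ℝ) ^ (n + 1) - (x t : ℝ) ^ (m + 1)| <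
        (1 - 1 / ((m : ℝ) + 1) - 1 / ((n : ℝ) + 1) + e t) * L t := h3
    linarith

/-- the inequality with powers -/
theorem hallPow' (p q k : ℕ) (hp : 1 ≤ p) (hq : 1 ≤ q) (Γ : Subgroup ℚˣ) (hΓ : Γ.FG) :
    ∃ δ : ℝ, 0 < δ ∧ ∃ K : ℝ, 0 < K ∧ ∀ M : ℝ, 1 ≤ M → ∀ (u : Fin k → Γ) (a c : Fin k → ℤ),
      (∀ j, |(a j : ℝ)| ≤ M) → (∀ j, |(c j : ℝ)| ≤ M) → ∀ x y : ℤ,
      (x : ℚ) = ∑ j, ((u j : ℚˣ) : ℚ) * a j → (y : ℚ) = ∑ j, ((u j : ℚˣ) : ℚ) * c j →
      y ^ q ≠ x ^ p →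
      (max (|(x : ℝ)| ^ p) (|(y : ℝ)| ^ q)) ^ (1 - 1 / (p : ℝ) - 1 / (q : ℝ) + δ) ≤
        (K * M) ^ K * |(y : ℝ) ^ q - (x : ℝ) ^ p| := by
  obtain ⟨m, rfl⟩ : ∃ m, p = m + 1 := ⟨p - 1, (Nat.sub_add_cancel hp).symm⟩
  obtain ⟨n, rfl⟩ : ∃ n, q = n + 1 := ⟨q - 1, (Nat.sub_add_cancel hq).symm⟩
  obtain ⟨δ, hδ, C, hC⟩ := hall' ncF csF hbF fwF m n k Γ hΓ
  refine ⟨δ, hδ, max C 0 + Real.exp 1, by positivity, ?_⟩
  intro M hM u a c ha hc x y hx hy hne
  have h := hC M hM u a c ha hc x y hx hy hne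
  set K : ℝ := max C 0 + Real.exp 1 with hK
  set Z : ℝ := max (|(x : ℝ)| ^ (m + 1)) (|(y : ℝ)| ^ (n + 1)) with hZ
  set D : ℝ := |(y : ℝ) ^ (n + 1) - (x : ℝ) ^ (m + 1)| with hD
  have hD1 : 1 ≤ D := by
    have h1 : (1 : ℤ) ≤ |y ^ (n + 1) - x ^ (m + 1)| := Int.one_le_abs (sub_ne_zero.2 hne)
    have h2 : ((1 : ℤ) : ℝ) ≤ ((|y ^ (n + 1) - x ^ (m + 1)| : ℤ) : ℝ) := by exact_mod_cast h1
    push_cast at h2
    exact h2
  have hZ0 : 0 < Z := by
    by_contra h0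
    have h1 : |(x : ℝ)| ^ (m + 1) ≤ Z := le_max_left _ _
    have h2 : |(y : ℝ)| ^ (n + 1) ≤ Z := le_max_right _ _
    have h3 : |(x : ℝ)| ^ (m + 1) = 0 := le_antisymm (by linarith) (by positivity)
    have h4 : |(y : ℝ)| ^ (n + 1) = 0 := le_antisymm (by linarith) (by positivity)
    have h5 : x = 0 := by
      have := (pow_eq_zero_iff (Nat.succ_ne_zero m)).1 h3
      exact_mod_cast abs_eq_zero.1 this
    have h6 : y = 0 := by
      have := (pow_eq_zero_iff (Nat.succ_ne_zero n)).1 h4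
      exact_mod_cast abs_eq_zero.1 this
    exact hne (by rw [h5, h6, zero_pow (Nat.succ_ne_zero n), zero_pow (Nat.succ_ne_zero m)])
  have he1 : (1 : ℝ) < Real.exp 1 := by
    have := Real.add_one_lt_exp (show (1 : ℝ) ≠ 0 by norm_num)
    linarith
  have hKe : Real.exp 1 ≤ K := by rw [hK]; linarith [le_max_right C 0]
  have hKM : 0 < K * M := by
    have : 0 < K := by linarith
    positivity
  have hlogKM : 1 + Real.log M ≤ Real.log (K * M) := by
    rw [Real.log_mul (by linarith) (by linarith)]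
    have h1 : 1 ≤ Real.log K := by
      rw [← Real.log_exp 1]
      exact Real.log_le_log (Real.exp_pos _) hKe
    linarith
  have hlM : 0 ≤ 1 + Real.log M := by linarith [Real.log_nonneg hM]
  have h1 : C * (1 + Real.log M) ≤ K * Real.log (K * M) := by
    have h2 : C ≤ K := by rw [hK]; linarith [le_max_left C 0]
    have h3 : 0 ≤ K := by linarith
    calc C * (1 + Real.log M) ≤ K * (1 + Real.log M) := mul_le_mul_of_nonneg_right h2 hlM
      _ ≤ K * Real.log (K * M) := mul_le_mul_of_nonneg_left hlogKM h3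
  rw [Real.rpow_def_of_pos hZ0, Real.rpow_def_of_pos hKM]
  have h2 : D = Real.exp (Real.log D) := (Real.exp_log (by linarith)).symm
  rw [h2, ← Real.exp_add]
  refine Real.exp_le_exp.2 ?_
  push_cast at h ⊢
  linarith

/-- the size is at least 1 -/
lemma one_le_size {p q : ℕ} (hp : 1 ≤ p) (hq : 1 ≤ q) {x y : ℤ} (hne : y ^ q ≠ x ^ p) :
    1 ≤ max (|(x : ℝ)| ^ p) (|(y : ℝ)| ^ q) := by
  by_cases h : x = 0
  · have h1 : y ≠ 0 := by
      intro h2
      apply hne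
      rw [h, h2, zero_pow (by omega), zero_pow (by omega)]
    refine le_max_of_le_right (one_le_pow₀ ?_)
    exact_mod_cast Int.one_le_abs h1
  · refine le_max_of_le_left (one_le_pow₀ ?_)
    exact_mod_cast Int.one_le_abs h

/-- the inequality with powers and a small gain -/
theorem hallPowB (p q k : ℕ) (hp : 1 ≤ p) (hq : 1 ≤ q) (Γ : Subgroup ℚˣ) (hΓ : Γ.FG) (B : ℝ)
    (hB : 0 < B) :
    ∃ δ : ℝ, 0 < δ ∧ δ ≤ B ∧ ∃ K : ℝ, 0 < K ∧ ∀ M : ℝ, 1 ≤ M →
      ∀ (u : Fin k → Γ) (a c : Fin k → ℤ),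
      (∀ j, |(a j : ℝ)| ≤ M) → (∀ j, |(c j : ℝ)| ≤ M) → ∀ x y : ℤ,
      (x : ℚ) = ∑ j, ((u j : ℚˣ) : ℚ) * a j → (y : ℚ) = ∑ j, ((u j : ℚˣ) : ℚ) * c j →
      y ^ q ≠ x ^ p →
      (max (|(x : ℝ)| ^ p) (|(y : ℝ)| ^ q)) ^ (1 - 1 / (p : ℝ) - 1 / (q : ℝ) + δ) ≤
        (K * M) ^ K * |(y : ℝ) ^ q - (x : ℝ) ^ p| := by
  obtain ⟨δ, hδ, K, hK, h⟩ := hallPow' p q k hp hq Γ hΓ
  refine ⟨min δ B, lt_min hδ hB, min_le_right _ _, K, hK, ?_⟩
  intro M hM u a c ha hc x y hx hy hne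
  refine le_trans ?_ (h M hM u a c ha hc x y hx hy hne)
  refine Real.rpow_le_rpow_of_exponent_le (one_le_size hp hq hne) ?_
  linarith [min_le_left δ B]

end Pool.Agent.TH712.HG
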