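import Mathlib
import Pool.Agent.TH551.HA.HallMain

/-!
# The inequality of Davenport for S-unit germs, at all places
-/

set_option autoImplicit false
set_option linter.unusedSectionVars false
set_option linter.unusedVariables false

namespace Pool.Agent.TH712.HG

open Filter Topology Pool.Agent.TH932.Germs Pool.Agent.TH551.SU Pool.Agent.TH551.ZP
open Pool.Agent.TH551.SU.CRV Pool.Agent.TH551.HA

variable {s : ℕ} {b : Fin s → ℕ} {L : ℕ → ℝ} {r : ℕ} {hL : Tendsto L atTop atTop}
  {U : Fin (r + 1) → GG} {l : Fin (r + 1) → ℕ} {d : ℕ}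

/-- **the inequality of Davenport, for germs, at all places** -/
theorem hallPlaces (hnc : NcStmt) (hcs : CSStmt) (hb : ∀ v, (b v).Prime)
    (hbi : Function.Injective b) (hs : Setup b hL U l d) (hU0 : U 0 = 1) (m n : ℕ)
    (hd : m + n + 5 ≤ d) (X Y : Polynomial GG) (hX : Lift hL U l 1 X) (hY : Lift hL U l 1 Y)
    (hxi : Ing b L (X.eval 1)) (hyi : Ing b L (Y.eval 1))
    (hne : Y.eval 1 ^ (n + 1) - X.eval 1 ^ (m + 1) ≠ 0) :
    (∃ w : GG,
      (∀ v, Dom b L v (Y.eval 1 ^ n * w)
        (X.eval 1 * (Y.eval 1 ^ (n + 1) - X.eval 1 ^ (m + 1)))) ∧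
      (∀ v, Dom b L v (X.eval 1 ^ m * w)
        (Y.eval 1 * (Y.eval 1 ^ (n + 1) - X.eval 1 ^ (m + 1)))) ∧
      (∀ v : Fin s, Dom b L (some v) w 1) ∧
      ∀ ε : ℝ, 0 < ε → ∀ᶠ t in (UU : Filter ℕ),
        Real.exp (-(ε * L t)) ≤ ∏ v, av b v (rep w t)) ∨
    ∀ v, Dom b L v (X.eval 1 ^ (m + 1)) (Y.eval 1 ^ (n + 1) - X.eval 1 ^ (m + 1)) ∧
      Dom b L v (Y.eval 1 ^ (n + 1)) (Y.eval 1 ^ (n + 1) - X.eval 1 ^ (m + 1)) := by
  classical
  set E : Polynomial GG := Polynomial.X ^ (l 0) with hE
  have hEL : Lift hL U l 1 E := by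
    have h := Lift.gen (hL := hL) (U := U) (l := l) 0
    rw [hU0, Polynomial.C_1, one_mul] at h
    exact h
  have hE1 : E.eval 1 = 1 := by rw [hE]; simp
  set A : Polynomial GG := E ^ (m + 1) * Y ^ (n + 1) with hA
  set B : Polynomial GG := E ^ (n + 1) * X ^ (m + 1) with hB
  have hAL : Lift hL U l (m + n + 2) A := by
    have h := (hEL.pow (m + 1)).mul (hY.pow (n + 1))
    have h1 : 1 * (m + 1) + 1 * (n + 1) = m + n + 2 := by ring
    rwa [h1] at h
  have hBL : Lift hL U l (m + n + 2) B := by
    have h := (hEL.pow (n + 1)).mul (hX.pow (m + 1))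
    have h1 : 1 * (n + 1) + 1 * (m + 1) = m + n + 2 := by ring
    rwa [h1] at h
  have hDL : Lift hL U l (m + n + 2) (A - B) := hAL.sub hBL
  -- the Wronskian without its obvious factors
  set ω : Polynomial GG := Polynomial.C ((m : GG) - n) * (th E * X * Y) +
    Polynomial.C ((n : GG) + 1) * (E * X * th Y) - Polynomial.C ((m : GG) + 1) * (E * Y * th X)
    with hω
  have hωL : Lift hL U l 3 ω := by
    have h1 : Lift hL U l 3 (th E * X * Y) := (hEL.th.mul hX).mul hY
    have h2 : Lift hL U l 3 (E * X * th Y) := (hEL.mul hX).mul hY.th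
    have h3 : Lift hL U l 3 (E * Y * th X) := (hEL.mul hY).mul hX.th
    refine ((h1.smul ?_).add (h2.smul ?_)).sub (h3.smul ?_)
    · exact sub_mem (natCast_mem _ m) (natCast_mem _ n)
    · exact add_mem (natCast_mem _ n) (one_mem _)
    · exact add_mem (natCast_mem _ m) (one_mem _)
  have hthA : th A = (m + 1 : ℕ) * E ^ m * th E * Y ^ (n + 1) +
      E ^ (m + 1) * ((n + 1 : ℕ) * Y ^ n * th Y) := by
    rw [hA, th_mul, th_pow, th_pow]
  have hthB : th B = (n + 1 : ℕ) * E ^ n * th E * X ^ (m + 1) +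
      E ^ (n + 1) * ((m + 1 : ℕ) * X ^ m * th X) := by
    rw [hB, th_mul, th_pow, th_pow]
  have hid : E * X * th (A - B) - (A - B) * (Polynomial.C ((n : GG) + 1) * th E * X +
      Polynomial.C ((m : GG) + 1) * E * th X) = E ^ (m + 1) * Y ^ n * ω := by
    rw [th_sub, hthA, hthB, hω, hA, hB]
    simp only [Polynomial.C_add, Polynomial.C_sub, Polynomial.C_1, map_natCast]
    push_cast
    ring
  have hid' : E * Y * th (A - B) - (A - B) * (Polynomial.C ((m : GG) + 1) * th E * Y +
      Polynomial.C ((n : GG) + 1) * E * th Y) = E ^ (n + 1) * X ^ m * ω := by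
    rw [th_sub, hthA, hthB, hω, hA, hB]
    simp only [Polynomial.C_add, Polynomial.C_sub, Polynomial.C_1, map_natCast]
    push_cast
    ring
  set x := X.eval 1 with hx
  set y := Y.eval 1 with hy
  set D : GG := y ^ (n + 1) - x ^ (m + 1) with hD
  have hD1 : (A - B).eval 1 = D := by
    rw [hA, hB, hD, hx, hy]
    simp [hE1]
  -- the identities at 1
  have hid1 : y ^ n * ω.eval 1 = x * (th (A - B)).eval 1 -
      D * (((n : GG) + 1) * (th E).eval 1 * x + ((m : GG) + 1) * (th X).eval 1) := by
    have h := congrArg (Polynomial.eval 1) hid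
    simp only [Polynomial.eval_sub, Polynomial.eval_mul, Polynomial.eval_add, Polynomial.eval_pow,
      Polynomial.eval_C, hE1, one_pow, one_mul, mul_one] at h
    rw [← h, ← hD1]
    simp only [Polynomial.eval_sub]
    rfl
  have hid1' : x ^ m * ω.eval 1 = y * (th (A - B)).eval 1 -
      D * (((m : GG) + 1) * (th E).eval 1 * y + ((n : GG) + 1) * (th Y).eval 1) := by
    have h := congrArg (Polynomial.eval 1) hid'
    simp only [Polynomial.eval_sub, Polynomial.eval_mul, Polynomial.eval_add, Polynomial.eval_pow,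
      Polynomial.eval_C, hE1, one_pow, one_mul, mul_one] at h
    rw [← h, ← hD1]
    simp only [Polynomial.eval_sub]
    rfl
  have hthE : (th E).eval 1 ∈ KK L hL := by
    have h1 : (th E).eval 1 = (l 0 : GG) := by
      have h2 := th_monomial (1 : GG) (l 0)
      rw [Polynomial.C_1, one_mul] at h2
      rw [hE, h2]
      simp
    rw [h1]
    exact natCast_mem _ _
  have hthD : ∀ v, Dom b L v ((th (A - B)).eval 1) D := by
    intro v
    have h := hDL.th_dom hnc hb hbi hs (by omega) v
    rwa [hD1] at h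
  -- the left sides are dominated
  have hdom : ∀ v, Dom b L v (y ^ n * ω.eval 1) (x * D) := by
    intro v
    rw [hid1]
    have h1 : Dom b L v (x * (th (A - B)).eval 1) (x * D) :=
      Dom.mul hb (Dom.refl hb hL _ _) (hthD v)
    have h2 : Dom b L v (((n : GG) + 1) * (th E).eval 1 * x + ((m : GG) + 1) * (th X).eval 1)
        x := by
      refine Dom.add hb hL ?_ ?_
      · exact Dom.smul hb hbi hL (mul_mem (add_mem (natCast_mem _ n) (one_mem _)) hthE)
          (Dom.refl hb hL _ _)
      · exact Dom.smul hb hbi hL (add_mem (natCast_mem _ m) (one_mem _))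
          (hX.th_dom hnc hb hbi hs (by omega) v)
    refine Dom.sub hb hL h1 ?_
    rw [mul_comm x D]
    exact Dom.mul hb (Dom.refl hb hL _ _) h2
  have hdom' : ∀ v, Dom b L v (x ^ m * ω.eval 1) (y * D) := by
    intro v
    rw [hid1']
    have h1 : Dom b L v (y * (th (A - B)).eval 1) (y * D) :=
      Dom.mul hb (Dom.refl hb hL _ _) (hthD v)
    have h2 : Dom b L v (((m : GG) + 1) * (th E).eval 1 * y + ((n : GG) + 1) * (th Y).eval 1)
        y := by
      refine Dom.add hb hL ?_ ?_
      · exact Dom.smul hb hbi hL (mul_mem (add_mem (natCast_mem _ m) (one_mem _)) hthE)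
          (Dom.refl hb hL _ _)
      · exact Dom.smul hb hbi hL (add_mem (natCast_mem _ n) (one_mem _))
          (hY.th_dom hnc hb hbi hs (by omega) v)
    refine Dom.sub hb hL h1 ?_
    rw [mul_comm y D]
    exact Dom.mul hb (Dom.refl hb hL _ _) h2
  -- the factor at all places
  have hωdom : ∀ v, Dom b L v (ω.eval 1) (x * y) := by
    intro v
    rw [hω]
    simp only [Polynomial.eval_sub, Polynomial.eval_mul, Polynomial.eval_add, Polynomial.eval_C,
      hE1, one_mul]
    refine Dom.sub hb hL (Dom.add hb hL ?_ ?_) ?_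
    · refine Dom.smul hb hbi hL (sub_mem (natCast_mem _ m) (natCast_mem _ n)) ?_
      rw [mul_assoc]
      exact Dom.smul hb hbi hL hthE (Dom.refl hb hL _ _)
    · refine Dom.smul hb hbi hL (add_mem (natCast_mem _ n) (one_mem _)) ?_
      exact Dom.mul hb (Dom.refl hb hL _ _) (hY.th_dom hnc hb hbi hs (by omega) v)
    · refine Dom.smul hb hbi hL (add_mem (natCast_mem _ m) (one_mem _)) ?_
      rw [mul_comm x y]
      exact Dom.mul hb (Dom.refl hb hL _ _) (hX.th_dom hnc hb hbi hs (by omega) v)
  by_cases hω0 : ω.eval 1 = 0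
  · -- the Wronskian vanishes
    right
    have h1 : ω = 0 := hωL.eq_zero hcs hb hbi hs (by omega) hω0
    by_cases hB0 : B = 0
    · have h2 : x ^ (m + 1) = 0 := by
        have h3 := congrArg (Polynomial.eval 1) hB0
        rw [hB] at h3
        simpa [hE1, ← hx] using h3
      intro v
      constructor
      · rw [h2]
        exact Dom.zero hb hL _ _
      · rw [hD, h2, sub_zero]
        exact Dom.refl hb hL _ _
    -- A and B are proportional
    have hWid : th A * B - A * th B = E ^ (m + n + 1) * X ^ m * Y ^ n * ω := by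
      rw [hthA, hthB, hω, hA, hB]
      simp only [Polynomial.C_add, Polynomial.C_sub, Polynomial.C_1, map_natCast]
      push_cast
      ring
    have hW : Polynomial.derivative A * B = A * Polynomial.derivative B := by
      rw [h1, mul_zero] at hWid
      unfold th at hWid
      have h2 : Polynomial.X * (Polynomial.derivative A * B - A * Polynomial.derivative B) =
          0 := by
        linear_combination hWid
      exact sub_eq_zero.1 ((mul_eq_zero.1 h2).resolve_left Polynomial.X_ne_zero)
    obtain ⟨κ, hκ⟩ := prop_of_wr A B hB0 hW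
    have hlc : B.coeff B.natDegree ≠ 0 := Polynomial.leadingCoeff_ne_zero.2 hB0
    have hκK : κ ∈ KK L hL := by
      have h2 := Lift.coeff_div hb hs (by omega) hAL hBL B.natDegree hlc
      rw [hκ, Polynomial.coeff_C_mul, mul_div_assoc, div_self hlc, mul_one] at h2
      exact h2
    have hy2 : y ^ (n + 1) = κ * x ^ (m + 1) := by
      have h2 := congrArg (Polynomial.eval 1) hκ
      rw [hA, hB] at h2
      simpa only [Polynomial.eval_mul, Polynomial.eval_pow, Polynomial.eval_C, hE1, one_pow,
        one_mul, ← hx, ← hy] using h2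
    have hD2 : D = (κ - 1) * x ^ (m + 1) := by
      rw [hD, hy2]
      ring
    have hκ1 : κ - 1 ≠ 0 := by
      intro h2
      rw [h2, zero_mul] at hD2
      exact hne hD2
    have h4 : ∀ v, Dom b L v (x ^ (m + 1)) D := by
      intro v
      rw [hD2]
      have h3 := Dom.mul hb (Dom.one_of_KK hb hbi hL v (sub_mem hκK (one_mem _)) hκ1)
        (Dom.refl hb hL v (x ^ (m + 1)))
      rwa [one_mul] at h3
    intro v
    refine ⟨h4 v, ?_⟩
    rw [hy2]
    exact Dom.smul hb hbi hL hκK (h4 v)
  · left
    refine ⟨ω.eval 1, hdom, hdom', ?_, QI.lower hb hbi hL (hωL.qi hb hs) hω0⟩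
    intro v
    have h5 := Dom.mul hb (hxi v) (hyi v)
    rw [one_mul] at h5
    exact Dom.trans hb (hωdom (some v)) h5

end Pool.Agent.TH712.HG
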