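import Mathlib
import Pool.Agent.TH712.HG.Main
import Pool.Agent.TH712.HG.Places
import Pool.Agent.TH419.HX.Root

/-!
# The part prime to `S` of `y ^ 2 - x ^ 3` for sums of S-units
-/

set_option autoImplicit false
set_option linter.unusedSectionVars false
set_option linter.unusedVariables false

namespace Pool.Agent.TH712.HG

open Filter Topology Pool.Agent.TH932.Germs Pool.Agent.TH551.SU Pool.Agent.TH551.ZP
open Pool.Agent.TH551.SU.CRV Pool.Agent.TH551.SU.Ht Pool.Agent.TH551.HA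

section pr

variable {s : ℕ} {b : Fin s → ℕ}

/-- the product of the absolute values over the infinite place and the places in `F` -/
noncomputable def pr (b : Fin s → ℕ) (F : Finset (Fin s)) (q : ℚ) : ℝ :=
  av b none q * ∏ v ∈ F, av b (some v) q

lemma pr_nonneg (hb : ∀ v, (b v).Prime) (F : Finset (Fin s)) (q : ℚ) : 0 ≤ pr b F q :=
  mul_nonneg (av_nonneg hb _ _) (Finset.prod_nonneg fun _ _ => av_nonneg hb _ _)

lemma pr_mul (hb : ∀ v, (b v).Prime) (F : Finset (Fin s)) (x y : ℚ) :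
    pr b F (x * y) = pr b F x * pr b F y := by
  unfold pr
  rw [av_mul hb, Finset.prod_congr rfl fun v _ => av_mul hb (some v) x y,
    Finset.prod_mul_distrib]
  ring

lemma av_int_le (hb : ∀ v, (b v).Prime) (v : Fin s) (z : ℤ) : av b (some v) (z : ℚ) ≤ 1 := by
  have := Fact.mk (hb v)
  simp only [av]
  exact_mod_cast padicNorm.of_int (p := b v) z

lemma pr_int_le (hb : ∀ v, (b v).Prime) (F : Finset (Fin s)) (z : ℤ) :
    pr b F (z : ℚ) ≤ |(z : ℝ)| := by
  unfold pr
  have h1 : av b none (z : ℚ) = |(z : ℝ)| := by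
    simp only [av]
    push_cast
    rfl
  rw [h1]
  refine mul_le_of_le_one_right (abs_nonneg _) ?_
  exact Finset.prod_le_one (fun v _ => av_nonneg hb _ _) fun v _ => av_int_le hb v z

lemma pr_unit (hb : ∀ v, (b v).Prime) (hbi : Function.Injective b) (F : Finset (Fin s)) {e : ℚ}
    (he : IsSU b e) (hF : ∀ v, v ∉ F → av b (some v) e = 1) : pr b F e = 1 := by
  classical
  have h1 := prod_av_unit hb hbi he
  rw [Fintype.prod_option] at h1
  unfold pr
  rw [← h1]
  congr 1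
  exact Finset.prod_subset (Finset.subset_univ F) fun v _ hv => hF v hv

lemma pr_lower (hb : ∀ v, (b v).Prime) (F : Finset (Fin s)) {w : ℚ} {B : ℝ} (hB : 1 ≤ B)
    (hw : ∀ v : Fin s, av b (some v) w ≤ B) : ∏ v, av b v w ≤ pr b F w * B ^ s := by
  classical
  rw [Fintype.prod_option]
  unfold pr
  rw [mul_assoc]
  refine mul_le_mul_of_nonneg_left ?_ (av_nonneg hb _ _)
  rw [← Finset.prod_mul_prod_compl F]
  refine mul_le_mul_of_nonneg_left ?_ (Finset.prod_nonneg fun _ _ => av_nonneg hb _ _)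
  calc ∏ v ∈ Fᶜ, av b (some v) w ≤ ∏ _v ∈ Fᶜ, B :=
        Finset.prod_le_prod (fun v _ => av_nonneg hb _ _) fun v _ => hw v
    _ = B ^ (Fᶜ).card := Finset.prod_const _
    _ ≤ B ^ s := by
      refine pow_le_pow_right₀ hB ?_
      exact (Finset.card_le_univ _).trans (by rw [Fintype.card_fin])

end pr

/-- the inequality at one place -/
lemma place1 {X Y W Δ E z : ℝ} (hX : 0 ≤ X) (hY : 0 ≤ Y) (hΔ : 0 ≤ Δ)
    (hE : 0 ≤ E) (hz : 0 < z) (hz6 : z ^ 6 = max (X ^ 3) (Y ^ 2)) (h1 : Y * W ≤ E * (X * Δ))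
    (h2 : X ^ 2 * W ≤ E * (Y * Δ)) : z * W ≤ E * Δ := by
  have hXz : X ≤ z ^ 2 := by
    have h3 : X ^ 3 ≤ (z ^ 2) ^ 3 := by
      rw [← pow_mul, hz6]
      exact le_max_left _ _
    exact le_of_pow_le_pow_left₀ (by norm_num) (by positivity) h3
  have hYz : Y ≤ z ^ 3 := by
    have h3 : Y ^ 2 ≤ (z ^ 3) ^ 2 := by
      rw [← pow_mul, hz6]
      exact le_max_right _ _
    exact le_of_pow_le_pow_left₀ (by norm_num) (by positivity) h3
  rcases max_choice (X ^ 3) (Y ^ 2) with h | h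
  · -- the first one is larger
    have hX2 : X = z ^ 2 := by
      refine le_antisymm hXz ?_
      have h3 : (z ^ 2) ^ 3 ≤ X ^ 3 := by
        rw [← pow_mul, hz6, h]
      exact le_of_pow_le_pow_left₀ (by norm_num) hX h3
    rw [hX2] at h2
    have h3 : E * (Y * Δ) ≤ E * (z ^ 3 * Δ) :=
      mul_le_mul_of_nonneg_left (mul_le_mul_of_nonneg_right hYz hΔ) hE
    have h4 : z ^ 3 * (z * W) ≤ z ^ 3 * (E * Δ) := by
      calc z ^ 3 * (z * W) = (z ^ 2) ^ 2 * W := by ring
        _ ≤ E * (z ^ 3 * Δ) := h2.trans h3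
        _ = z ^ 3 * (E * Δ) := by ring
    exact le_of_mul_le_mul_left h4 (by positivity)
  · have hY2 : Y = z ^ 3 := by
      refine le_antisymm hYz ?_
      have h3 : (z ^ 3) ^ 2 ≤ Y ^ 2 := by
        rw [← pow_mul, hz6, h]
      exact le_of_pow_le_pow_left₀ (by norm_num) hY h3
    rw [hY2] at h1
    have h3 : E * (X * Δ) ≤ E * (z ^ 2 * Δ) :=
      mul_le_mul_of_nonneg_left (mul_le_mul_of_nonneg_right hXz hΔ) hE
    have h4 : z ^ 2 * (z * W) ≤ z ^ 2 * (E * Δ) := by
      calc z ^ 2 * (z * W) = z ^ 3 * W := by ring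
        _ ≤ E * (z ^ 2 * Δ) := h1.trans h3
        _ = z ^ 2 * (E * Δ) := by ring
    exact le_of_mul_le_mul_left h4 (by positivity)

/-- **The part prime to `S` of `y ^ 2 - x ^ 3`.** -/
theorem hallS (hnc : NcStmt) (hcs : CSStmt) (hhb : HbStmt) (hfw : FwStmt) (S : Finset ℕ)
    (hS : ∀ p ∈ S, p.Prime) (k : ℕ) (Γ : Subgroup ℚˣ) (hΓ : Γ.FG) (ε : ℝ) (hε : 0 < ε) :
    ∃ C : ℝ, ∀ M : ℝ, 1 ≤ M → ∀ (u : Fin k → Γ) (a c : Fin k → ℤ), (∀ j, |(a j : ℝ)| ≤ M) →
      (∀ j, |(c j : ℝ)| ≤ M) → ∀ x y e D : ℤ, (x : ℚ) = ∑ j, ((u j : ℚˣ) : ℚ) * a j →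
      (y : ℚ) = ∑ j, ((u j : ℚˣ) : ℚ) * c j → D ≠ 0 → e ≠ 0 → e.natAbs.primeFactors ⊆ S →
      (∀ p ∈ S, ¬ ((p : ℤ) ^ 6 ∣ x ^ 3 ∧ (p : ℤ) ^ 6 ∣ y ^ 2)) → y ^ 2 = x ^ 3 + e * D →
      Real.log (max (|(x : ℝ)| ^ 3) (|(y : ℝ)| ^ 2)) / 6 ≤
        C * (1 + Real.log M) + (1 + ε) * Real.log |(D : ℝ)| := by
  classical
  obtain ⟨s, b, hb, hbi, hΓb⟩ := exists_base (Γ ⊔ Pool.Agent.TH419.HX.GamS S)
    (Subgroup.FG.sup hΓ (Pool.Agent.TH419.HX.gamS_fg S))
  have hb0 : ∀ v, b v ≠ 0 := fun v => (hb v).ne_zero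
  have hbS : ∀ p ∈ S, ∃ v, b v = p := by
    intro p hp
    by_contra hno
    push Not at hno
    have := Fact.mk (hS p hp)
    have hp0 : (p : ℚ) ≠ 0 := by exact_mod_cast (hS p hp).ne_zero
    have h1 : IsSU b ((Units.mk0 (p : ℚ) hp0 : ℚˣ) : ℚ) := by
      refine hΓb _ (Subgroup.mem_sup_right ?_)
      refine Pool.Agent.TH419.HX.mem_gamS (r := p) ⟨(hS p hp).ne_zero, ?_⟩ _ rfl
      rw [(hS p hp).primeFactors]
      exact Finset.singleton_subset_iff.2 hp
    have h2 := Pool.Agent.TH551.ZP.AR.val_SU_out hb p hno h1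
    rw [Units.val_mk0, padicValRat.self (hS p hp).one_lt] at h2
    exact one_ne_zero h2
  by_contra hcon
  push Not at hcon
  choose M hM u a c ha hc x y e D hx hy hD0 he0 heS hprim hxy hlt using fun t : ℕ => hcon (t : ℝ)
  set L : ℕ → ℝ := fun t => Real.log (max (|(x t : ℝ)| ^ 3) (|(y t : ℝ)| ^ 2)) with hLdef
  have hΔ0 : ∀ t, e t * D t ≠ 0 := fun t => mul_ne_zero (he0 t) (hD0 t)
  have hne : ∀ t, y t ^ 2 ≠ x t ^ 3 := by
    intro t h
    have h1 := hxy t
    rw [h] at h1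
    exact hΔ0 t (by linarith)
  have hmax1 : ∀ t, 1 ≤ max (|(x t : ℝ)| ^ 3) (|(y t : ℝ)| ^ 2) := fun t =>
    one_le_size (by norm_num) (by norm_num) (hne t)
  have hL0 : ∀ t, 0 ≤ L t := fun t => Real.log_nonneg (hmax1 t)
  have hlM : ∀ t, 0 ≤ Real.log (M t) := fun t => Real.log_nonneg (hM t)
  have hD1 : ∀ t, 1 ≤ |(D t : ℝ)| := fun t => by exact_mod_cast Int.one_le_abs (hD0 t)
  have hlD : ∀ t, 0 ≤ Real.log |(D t : ℝ)| := fun t => Real.log_nonneg (hD1 t)
  have hlt' : ∀ t : ℕ, (t : ℝ) * (1 + Real.log (M t)) + (1 + ε) * Real.log |(D t : ℝ)| <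
      L t / 6 := fun t => hlt t
  have hLt : ∀ t : ℕ, (t : ℝ) * (1 + Real.log (M t)) < L t := by
    intro t
    have h1 := hlt' t
    have h2 : 0 ≤ (1 + ε) * Real.log |(D t : ℝ)| := mul_nonneg (by linarith) (hlD t)
    have h3 := hL0 t
    linarith
  have hL : Tendsto L atTop atTop := by
    refine tendsto_atTop_mono (fun t => ?_) tendsto_natCast_atTop_atTop
    have h1 := hLt t
    have h2 : 0 ≤ (t : ℝ) * Real.log (M t) := mul_nonneg (Nat.cast_nonneg t) (hlM t)
    rw [mul_add, mul_one] at h1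
    linarith
  -- the digits are negligible
  have hneg : ∀ z : ℕ → ℤ, (∀ t, |(z t : ℝ)| ≤ M t) → gm (fun t => (z t : ℚ)) ∈ KK L hL := by
    intro z hz
    refine ⟨z, fun _ => 1, ?_, Negl.one hL, by simp, by
      congr 1
      funext t
      simp⟩
    intro ε' hε'
    have h1 : ∀ᶠ t : ℕ in atTop, 1 / ε' ≤ (t : ℝ) :=
      tendsto_natCast_atTop_atTop.eventually_ge_atTop _
    refine ev_of_atTop (h1.mono fun t ht => ?_)
    refine (hz t).trans ?_
    rw [← Real.exp_log (show 0 < M t by linarith [hM t])]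
    refine Real.exp_le_exp.2 ?_
    have h2 := hLt t
    have h3 : 1 / ε' * Real.log (M t) ≤ (t : ℝ) * (1 + Real.log (M t)) := by
      have h5 : (0 : ℝ) ≤ t := Nat.cast_nonneg t
      nlinarith [mul_le_mul_of_nonneg_right ht (hlM t)]
    have h5 : 1 / ε' * Real.log (M t) ≤ L t := h3.trans h2.le
    rw [one_div, inv_mul_le_iff₀ hε'] at h5
    exact h5
  -- integers bounded by a power of exp L
  have hintle : ∀ z : ℕ → ℤ, (∀ t, |(z t : ℝ)| ≤ Real.exp (L t)) → ∀ t, ∀ v,
      av b v (z t : ℚ) ≤ Real.exp (1 * L t) := by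
    intro z hz t v
    rw [one_mul]
    cases v with
    | none =>
      simp only [av]
      push_cast
      exact hz t
    | some w => exact (av_int_le hb w (z t)).trans (Real.one_le_exp (hL0 t))
  have hpowle : ∀ (z : ℤ) (e : ℕ) (B : ℝ), 1 ≤ B → |(z : ℝ)| ^ (e + 1) ≤ B → |(z : ℝ)| ≤ B := by
    intro z e B hB hz
    by_cases h0 : z = 0
    · rw [h0, Int.cast_zero, abs_zero]
      linarith
    · have h1 : (1 : ℝ) ≤ |(z : ℝ)| := by exact_mod_cast Int.one_le_abs h0
      exact (le_self_pow₀ h1 (by omega)).trans hz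
  have hexpL : ∀ t, Real.exp (L t) = max (|(x t : ℝ)| ^ 3) (|(y t : ℝ)| ^ 2) :=
    fun t => Real.exp_log (by linarith [hmax1 t])
  have hxle : ∀ t, |(x t : ℝ)| ≤ Real.exp (L t) := fun t =>
    hpowle _ 2 _ (Real.one_le_exp (hL0 t)) (by rw [hexpL]; exact le_max_left _ _)
  have hyle : ∀ t, |(y t : ℝ)| ≤ Real.exp (L t) := fun t =>
    hpowle _ 1 _ (Real.one_le_exp (hL0 t)) (by rw [hexpL]; exact le_max_right _ _)
  -- the germs
  set V : Fin k → GG := fun j => gm (fun t => ((u t j : ℚˣ) : ℚ)) with hV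
  have hVS : ∀ j, GSU b (V j) := fun j =>
    ⟨_, rfl, fun t => hΓb _ (Subgroup.mem_sup_left (u t j).2)⟩
  have hgerm : ∀ (z : ℕ → ℤ) (e : ℕ → Fin k → ℤ),
      (∀ t, (z t : ℚ) = ∑ j, ((u t j : ℚˣ) : ℚ) * e t j) →
      ∑ j, gm (fun t => (e t j : ℚ)) * V j = gm (fun t => (z t : ℚ)) := by
    intro z e hz
    have h1 : ∀ j, gm (fun t => (e t j : ℚ)) * V j =
        gm (fun t => ((u t j : ℚˣ) : ℚ) * e t j) := by
      intro j
      rw [hV]
      simp only
      rw [gm_mul]
      congr 1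
      funext t
      ring
    simp only [h1]
    rw [gm_sum']
    congr 1
    funext t
    rw [hz t]
  have hrepz : ∀ z : ℕ → ℤ, ∀ᶠ t in (UU : Filter ℕ), rep (gm (fun t => (z t : ℚ))) t = z t :=
    fun z => rep_gm _
  have hHB : ∀ (z : ℕ → ℤ) (e : ℕ → Fin k → ℤ),
      (∀ t, (z t : ℚ) = ∑ j, ((u t j : ℚˣ) : ℚ) * e t j) → (∀ t j, |(e t j : ℝ)| ≤ M t) →
      (∀ t, |(z t : ℝ)| ≤ Real.exp (L t)) →
      ∃ (m' : ℕ) (u' : Fin m' → GG) (c' : Fin m' → KK L hL), (∀ i, GSU b (u' i)) ∧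
        (∀ i, Mod b L (u' i)) ∧ ∑ j, (c' j : GG) * u' j = gm (fun t => (z t : ℚ)) := by
    intro z e hz he hzl
    have h1 := hhb s b hb hbi L hL k V hVS
      (fun j => ⟨gm (fun t => (e t j : ℚ)), hneg _ fun t => he t j⟩) 1 (by
        have h2 : ∑ j, ((⟨gm (fun t => (e t j : ℚ)), hneg _ fun t => he t j⟩ : KK L hL) : GG) *
            V j = gm (fun t => (z t : ℚ)) := hgerm z e hz
        rw [h2]
        filter_upwards [hrepz z] with t ht v
        rw [ht]
        exact hintle z hzl t v)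
    obtain ⟨m', u', c', h3, h4, h5⟩ := h1
    exact ⟨m', u', c', h3, h4, h5.trans (hgerm z e hz)⟩
  obtain ⟨m1, u1, c1, hu1, hu1', hs1⟩ := hHB x a hx ha hxle
  obtain ⟨m2, u2, c2, hu2, hu2', hs2⟩ := hHB y c hy hc hyle
  -- the combined family
  set W : Fin (m1 + m2 + 1) → GG := Fin.cons 1 (Fin.append u1 u2) with hW
  have hWall : ∀ (P : GG → Prop), P 1 → (∀ j, P (u1 j)) → (∀ j, P (u2 j)) → ∀ j, P (W j) := by
    intro P h0 h1 h2 j
    rw [hW]
    refine Fin.cases ?_ (fun j => ?_) j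
    · simpa using h0
    · rw [Fin.cons_succ]
      refine Fin.addCases (fun i => ?_) (fun i => ?_) j
      · rw [Fin.append_left]
        exact h1 i
      · rw [Fin.append_right]
        exact h2 i
  have hWg : ∀ j, GSU b (W j) := hWall _ GSU.one hu1 hu2
  have hWm : ∀ j, Mod b L (W j) := hWall _ (Mod.one hb hL) hu1' hu2'
  obtain ⟨l, hl⟩ := hfw L hL (m1 + m2) W (fun j => GSU.ne_zero hb (hWg j)) 8
  have hs : Setup b hL W l 8 := ⟨hWg, hWm, hl⟩
  obtain ⟨X, hX, hX1⟩ := exists_lift (hL := hL) W l (fun j : Fin m1 => (Fin.castAdd m2 j).succ) c1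
  obtain ⟨Y, hY, hY1⟩ := exists_lift (hL := hL) W l (fun j : Fin m2 => (Fin.natAdd m1 j).succ) c2
  have hX2 : X.eval 1 = gm (fun t => (x t : ℚ)) := by
    rw [hX1, ← hs1]
    refine Finset.sum_congr rfl fun j _ => ?_
    rw [hW, Fin.cons_succ, Fin.append_left]
  have hY2 : Y.eval 1 = gm (fun t => (y t : ℚ)) := by
    rw [hY1, ← hs2]
    refine Finset.sum_congr rfl fun j _ => ?_
    rw [hW, Fin.cons_succ, Fin.append_right]
  have hing : ∀ z : ℕ → ℤ, Ing b L (gm (fun t => (z t : ℚ))) := by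
    intro z v
    rw [← gm_one, dom_gm]
    intro ε' hε'
    filter_upwards [L_nonneg hL] with t ht
    rw [av_one hb, mul_one]
    exact (av_int_le hb v (z t)).trans (Real.one_le_exp (by positivity))
  have hDg : gm (fun t => (y t : ℚ)) ^ (1 + 1) - gm (fun t => (x t : ℚ)) ^ (2 + 1) =
      gm (fun t => (e t : ℚ) * (D t : ℚ)) := by
    rw [gm_pow, gm_pow, gm_sub]
    congr 1
    funext t
    have h1 : ((y t ^ 2 : ℤ) : ℚ) = ((x t ^ 3 + e t * D t : ℤ) : ℚ) := by rw [hxy t]
    push_cast at h1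
    norm_num
    linarith
  have key := hallPlaces hnc hcs hb hbi hs (by rw [hW]; rfl) 2 1 (by norm_num) X Y hX hY
    (by rw [hX2]; exact hing x) (by rw [hY2]; exact hing y) (by
      rw [hX2, hY2, hDg, gm_ne_zero]
      refine Eventually.of_forall fun t => ?_
      exact_mod_cast hΔ0 t)
  rw [hX2, hY2, hDg] at key
  -- the places of `S`
  set F : Finset (Fin s) := Finset.univ.filter fun v => b v ∈ S with hF
  set N : ℝ := ∏ v ∈ F, (b v : ℝ) with hN
  have hb1 : ∀ v, (1 : ℝ) ≤ b v := fun v => by exact_mod_cast (hb v).one_lt.le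
  have hN1 : 1 ≤ N := by
    rw [hN]
    calc (1 : ℝ) = ∏ _v ∈ F, (1 : ℝ) := by simp
      _ ≤ ∏ v ∈ F, (b v : ℝ) := Finset.prod_le_prod (fun _ _ => zero_le_one) fun v _ => hb1 v
  have heU : ∀ t, pr b F (e t : ℚ) = 1 := by
    intro t
    have h1 : IsSU b (((e t).natAbs : ℕ) : ℚ) := by
      refine IsSU.nat hb0 _ (Int.natAbs_ne_zero.2 (he0 t)) ?_
      intro p hp hpd
      refine hbS p (heS t ?_)
      rw [Nat.mem_primeFactors]
      exact ⟨hp, hpd, Int.natAbs_ne_zero.2 (he0 t)⟩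
    have h2 : IsSU b (e t : ℚ) := by
      rcases Int.natAbs_eq (e t) with h4 | h4
      · have h5 : (e t : ℚ) = (((e t).natAbs : ℕ) : ℚ) := by
          conv_lhs => rw [h4]
          rw [Int.cast_natCast]
        rw [h5]
        exact h1
      · have h5 : (e t : ℚ) = -(((e t).natAbs : ℕ) : ℚ) := by
          conv_lhs => rw [h4]
          rw [Int.cast_neg, Int.cast_natCast]
        rw [h5]
        exact IsSU.neg h1
    refine pr_unit hb hbi F h2 fun v hv => ?_
    have := Fact.mk (hb v)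
    simp only [av]
    have h3 : padicNorm (b v) (e t : ℚ) = 1 := by
      rw [padicNorm.int_eq_one_iff]
      intro hdvd
      apply hv
      rw [hF, Finset.mem_filter]
      refine ⟨Finset.mem_univ _, heS t ?_⟩
      rw [Nat.mem_primeFactors]
      exact ⟨hb v, Int.natCast_dvd.1 hdvd, Int.natAbs_ne_zero.2 (he0 t)⟩
    rw [h3]
    norm_num
  have hprΔ : ∀ t, pr b F ((e t : ℚ) * (D t : ℚ)) ≤ |(D t : ℝ)| := by
    intro t
    rw [pr_mul hb, heU t, one_mul]
    exact pr_int_le hb F (D t)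
  -- the sizes at the places
  set mx : Option (Fin s) → ℕ → ℝ := fun v t =>
    max (av b v (x t : ℚ) ^ 3) (av b v (y t : ℚ) ^ 2) with hmx
  set z : Option (Fin s) → ℕ → ℝ := fun v t => mx v t ^ ((1 : ℝ) / 6) with hz
  have hmx0 : ∀ v t, 0 ≤ mx v t := fun v t =>
    le_max_of_le_left (pow_nonneg (av_nonneg hb _ _) _)
  have hz6 : ∀ v t, z v t ^ 6 = mx v t := by
    intro v t
    rw [hz]
    simp only
    rw [← Real.rpow_natCast, ← Real.rpow_mul (hmx0 v t)]
    norm_num
  have hz0 : ∀ v t, 0 ≤ z v t := fun v t => Real.rpow_nonneg (hmx0 v t) _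
  have hmxn : ∀ t, mx none t = Real.exp (L t) := by
    intro t
    rw [hexpL t, hmx]
    simp only [av]
    push_cast
    rfl
  have hzn : ∀ t, z none t = Real.exp (L t / 6) := by
    intro t
    rw [hz]
    simp only
    rw [hmxn t, ← Real.exp_mul]
    congr 1
    ring
  have hzS : ∀ v ∈ F, ∀ t, (b v : ℝ)⁻¹ ≤ z (some v) t := by
    intro v hv t
    have := Fact.mk (hb v)
    have hvS : b v ∈ S := (Finset.mem_filter.1 hv).2
    have h1 : ((b v : ℝ)⁻¹) ^ 6 ≤ z (some v) t ^ 6 := by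
      rw [hz6]
      have h2 := hprim t (b v) hvS
      have h3 : ∀ (q : ℤ), ¬ ((b v : ℤ) ^ 6 ∣ q) → ((b v : ℝ)⁻¹) ^ 6 ≤ av b (some v) (q : ℚ) := by
        intro q hq
        have h4 : ¬ ((((b v) ^ 6 : ℕ) : ℤ) ∣ q) := by
          push_cast
          exact hq
        rw [padicNorm.dvd_iff_norm_le] at h4
        push Not at h4
        have h5 : ((((b v : ℚ) ^ (-(6 : ℕ) : ℤ)) : ℚ) : ℝ) ≤ ((padicNorm (b v) q : ℚ) : ℝ) := by
          exact_mod_cast h4.le
        refine le_trans (le_of_eq ?_) h5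
        push_cast
        rw [zpow_neg, inv_pow]
        norm_cast
      by_cases h4 : (b v : ℤ) ^ 6 ∣ x t ^ 3
      · have h5 : ¬ ((b v : ℤ) ^ 6 ∣ y t ^ 2) := h2 h4
        refine le_trans (h3 _ h5) ?_
        push_cast
        rw [av_pow hb]
        exact le_max_right _ _
      · refine le_trans (h3 _ h4) ?_
        push_cast
        rw [av_pow hb]
        exact le_max_left _ _
    exact le_of_pow_le_pow_left₀ (by norm_num) (hz0 _ _) h1
  have hzSp : ∀ t, N⁻¹ ≤ ∏ v ∈ F, z (some v) t := by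
    intro t
    rw [hN, ← Finset.prod_inv_distrib]
    exact Finset.prod_le_prod (fun v _ => inv_nonneg.2 (by linarith [hb1 v]))
      fun v hv => hzS v hv t
  -- the small parameter
  obtain ⟨ε1, hε1⟩ : ∃ ε1 : ℝ, ε1 = ε / (6 * (1 + ε) * (2 + 2 * s)) := ⟨_, rfl⟩
  have hε1pos : 0 < ε1 := by rw [hε1]; positivity
  have hcard : F.card ≤ s := (Finset.card_le_univ _).trans (by rw [Fintype.card_fin])
  have hfin : ∀ᶠ t in (UU : Filter ℕ), Real.exp (L t / 6) ≤
      N ^ 6 * Real.exp (ε1 * L t) ^ (2 + 2 * s) * |(D t : ℝ)| := by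
    rcases key with ⟨w, hw1, hw2, hw3, hw4⟩ | hk
    · have e1 : ∀ᶠ t in (UU : Filter ℕ), ∀ v, av b v (y t : ℚ) * av b v (rep w t) ≤
          Real.exp (ε1 * L t) * (av b v (x t : ℚ) * av b v ((e t : ℚ) * (D t : ℚ))) := by
        refine eventually_all.2 fun v => ?_
        have h1 := hw1 v
        rw [← gm_rep w, pow_one, gm_mul, gm_mul, dom_gm] at h1
        filter_upwards [h1 ε1 hε1pos] with t ht
        rwa [av_mul hb, av_mul hb] at ht
      have e2 : ∀ᶠ t in (UU : Filter ℕ), ∀ v, av b v (x t : ℚ) ^ 2 * av b v (rep w t) ≤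
          Real.exp (ε1 * L t) * (av b v (y t : ℚ) * av b v ((e t : ℚ) * (D t : ℚ))) := by
        refine eventually_all.2 fun v => ?_
        have h1 := hw2 v
        rw [← gm_rep w, gm_pow, gm_mul, gm_mul, dom_gm] at h1
        filter_upwards [h1 ε1 hε1pos] with t ht
        rwa [av_mul hb, av_mul hb, av_pow hb] at ht
      have e3 : ∀ᶠ t in (UU : Filter ℕ), ∀ v : Fin s, av b (some v) (rep w t) ≤
          Real.exp (ε1 * L t) := by
        refine eventually_all.2 fun v => ?_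
        filter_upwards [hw3 v ε1 hε1pos, rep_one] with t h1 h2
        rwa [h2, av_one hb, mul_one] at h1
      filter_upwards [e1, e2, e3, hw4 ε1 hε1pos, L_nonneg hL] with t h1 h2 h3 h4 h5
      set E : ℝ := Real.exp (ε1 * L t) with hE
      have hE1 : 1 ≤ E := Real.one_le_exp (by positivity)
      have hE0 : 0 < E := by linarith
      -- at one place
      have hpl : ∀ v, 0 < z v t → z v t * av b v (rep w t) ≤
          E * av b v ((e t : ℚ) * (D t : ℚ)) := fun v hv =>
        place1 (av_nonneg hb _ _) (av_nonneg hb _ _) (av_nonneg hb _ _) hE0.le hv (hz6 v t)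
          (h1 v) (h2 v)
      have hzn0 : 0 < z none t := by rw [hzn]; exact Real.exp_pos _
      have hzS0 : ∀ v ∈ F, 0 < z (some v) t := fun v hv =>
        lt_of_lt_of_le (inv_pos.2 (by linarith [hb1 v])) (hzS v hv t)
      have h6 : (z none t * ∏ v ∈ F, z (some v) t) * pr b F (rep w t) ≤
          E ^ (1 + s) * |(D t : ℝ)| := by
        calc (z none t * ∏ v ∈ F, z (some v) t) * pr b F (rep w t) =
            (z none t * av b none (rep w t)) *
              ∏ v ∈ F, (z (some v) t * av b (some v) (rep w t)) := by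
              unfold pr
              rw [Finset.prod_mul_distrib]
              ring
          _ ≤ (E * av b none ((e t : ℚ) * (D t : ℚ))) *
              ∏ v ∈ F, (E * av b (some v) ((e t : ℚ) * (D t : ℚ))) := by
              refine mul_le_mul (hpl none hzn0) ?_ ?_ ?_
              · refine Finset.prod_le_prod (fun v hv => ?_) fun v hv => hpl _ (hzS0 v hv)
                exact mul_nonneg (hz0 _ _) (av_nonneg hb _ _)
              · exact Finset.prod_nonneg fun v _ => mul_nonneg (hz0 _ _) (av_nonneg hb _ _)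
              · exact mul_nonneg hE0.le (av_nonneg hb _ _)
          _ = E ^ (1 + F.card) * pr b F ((e t : ℚ) * (D t : ℚ)) := by
              unfold pr
              rw [Finset.prod_mul_distrib, Finset.prod_const, pow_add, pow_one]
              ring
          _ ≤ E ^ (1 + s) * |(D t : ℝ)| := by
              refine mul_le_mul (pow_le_pow_right₀ hE1 (by omega)) (hprΔ t)
                (pr_nonneg hb _ _) (by positivity)
      have h7 := pr_lower hb F hE1 h3
      have h8 : Real.exp (-(ε1 * L t)) ≤ pr b F (rep w t) * E ^ s := h4.trans h7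
      have h9 : 1 ≤ pr b F (rep w t) * E ^ (s + 1) := by
        have h10 : Real.exp (-(ε1 * L t)) * E = 1 := by
          rw [hE, ← Real.exp_add]
          simp
        calc (1 : ℝ) = Real.exp (-(ε1 * L t)) * E := h10.symm
          _ ≤ (pr b F (rep w t) * E ^ s) * E := mul_le_mul_of_nonneg_right h8 hE0.le
          _ = pr b F (rep w t) * E ^ (s + 1) := by ring
      have h10 : Real.exp (L t / 6) * N⁻¹ ≤ z none t * ∏ v ∈ F, z (some v) t := by
        rw [← hzn t]
        exact mul_le_mul_of_nonneg_left (hzSp t) (hz0 _ _)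
      have h11 : Real.exp (L t / 6) * N⁻¹ ≤ E ^ (2 + 2 * s) * |(D t : ℝ)| := by
        calc Real.exp (L t / 6) * N⁻¹ ≤ (Real.exp (L t / 6) * N⁻¹) *
              (pr b F (rep w t) * E ^ (s + 1)) := le_mul_of_one_le_right (by positivity) h9
          _ ≤ (z none t * ∏ v ∈ F, z (some v) t) * (pr b F (rep w t) * E ^ (s + 1)) :=
              mul_le_mul_of_nonneg_right h10
                (mul_nonneg (pr_nonneg hb _ _) (by positivity))
          _ = ((z none t * ∏ v ∈ F, z (some v) t) * pr b F (rep w t)) * E ^ (s + 1) := by ring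
          _ ≤ (E ^ (1 + s) * |(D t : ℝ)|) * E ^ (s + 1) :=
              mul_le_mul_of_nonneg_right h6 (by positivity)
          _ = E ^ (2 + 2 * s) * |(D t : ℝ)| := by ring
      have h12 : Real.exp (L t / 6) ≤ N * (E ^ (2 + 2 * s) * |(D t : ℝ)|) := by
        rw [← div_eq_mul_inv, div_le_iff₀ (by linarith)] at h11
        linarith
      calc Real.exp (L t / 6) ≤ N * (E ^ (2 + 2 * s) * |(D t : ℝ)|) := h12
        _ ≤ N ^ 6 * (E ^ (2 + 2 * s) * |(D t : ℝ)|) :=
            mul_le_mul_of_nonneg_right (le_self_pow₀ hN1 (by norm_num)) (by positivity)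
        _ = N ^ 6 * E ^ (2 + 2 * s) * |(D t : ℝ)| := by ring
    · have e1 : ∀ᶠ t in (UU : Filter ℕ), ∀ v, mx v t ≤
          Real.exp (ε1 * L t) * av b v ((e t : ℚ) * (D t : ℚ)) := by
        refine eventually_all.2 fun v => ?_
        obtain ⟨h1, h2⟩ := hk v
        rw [gm_pow, dom_gm] at h1 h2
        filter_upwards [h1 ε1 hε1pos, h2 ε1 hε1pos] with t h3 h4
        rw [av_pow hb] at h3 h4
        exact max_le h3 h4
      filter_upwards [e1, L_nonneg hL] with t h1 h5
      set E : ℝ := Real.exp (ε1 * L t) with hE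
      have hE1 : 1 ≤ E := Real.one_le_exp (by positivity)
      have hE0 : 0 < E := by linarith
      have h6 : mx none t * ∏ v ∈ F, mx (some v) t ≤ E ^ (1 + s) * |(D t : ℝ)| := by
        calc mx none t * ∏ v ∈ F, mx (some v) t
            ≤ (E * av b none ((e t : ℚ) * (D t : ℚ))) *
              ∏ v ∈ F, (E * av b (some v) ((e t : ℚ) * (D t : ℚ))) := by
              refine mul_le_mul (h1 none) ?_ ?_ ?_
              · exact Finset.prod_le_prod (fun v hv => hmx0 _ _) fun v hv => h1 _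
              · exact Finset.prod_nonneg fun v _ => hmx0 _ _
              · exact mul_nonneg hE0.le (av_nonneg hb _ _)
          _ = E ^ (1 + F.card) * pr b F ((e t : ℚ) * (D t : ℚ)) := by
              unfold pr
              rw [Finset.prod_mul_distrib, Finset.prod_const, pow_add, pow_one]
              ring
          _ ≤ E ^ (1 + s) * |(D t : ℝ)| := by
              refine mul_le_mul (pow_le_pow_right₀ hE1 (by omega)) (hprΔ t)
                (pr_nonneg hb _ _) (by positivity)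
      have h7 : (N⁻¹) ^ 6 ≤ ∏ v ∈ F, mx (some v) t := by
        calc (N⁻¹) ^ 6 ≤ (∏ v ∈ F, z (some v) t) ^ 6 :=
              pow_le_pow_left₀ (by positivity) (hzSp t) 6
          _ = ∏ v ∈ F, mx (some v) t := by
              rw [← Finset.prod_pow]
              exact Finset.prod_congr rfl fun v _ => hz6 _ _
      have h8 : Real.exp (L t / 6) ≤ mx none t := by
        rw [hmxn]
        refine Real.exp_le_exp.2 ?_
        linarith
      have h9 : Real.exp (L t / 6) * (N⁻¹) ^ 6 ≤ E ^ (1 + s) * |(D t : ℝ)| :=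
        (mul_le_mul h8 h7 (by positivity) (hmx0 _ _)).trans h6
      have h10 : Real.exp (L t / 6) ≤ N ^ 6 * (E ^ (1 + s) * |(D t : ℝ)|) := by
        rw [inv_pow, ← div_eq_mul_inv, div_le_iff₀ (by positivity)] at h9
        linarith
      calc Real.exp (L t / 6) ≤ N ^ 6 * (E ^ (1 + s) * |(D t : ℝ)|) := h10
        _ ≤ N ^ 6 * (E ^ (2 + 2 * s) * |(D t : ℝ)|) := by
            refine mul_le_mul_of_nonneg_left ?_ (by positivity)
            exact mul_le_mul_of_nonneg_right (pow_le_pow_right₀ hE1 (by omega)) (abs_nonneg _)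
        _ = N ^ 6 * E ^ (2 + 2 * s) * |(D t : ℝ)| := by ring
  -- the final contradiction
  have hbig : ∀ᶠ t : ℕ in (UU : Filter ℕ), (1 + ε) * (6 * Real.log N) ≤ (t : ℝ) :=
    ev_of_atTop (tendsto_natCast_atTop_atTop.eventually_ge_atTop _)
  obtain ⟨t, h1, h2⟩ := (hbig.and hfin).exists
  have h3 := Real.log_le_log (Real.exp_pos _) h2
  have hN0 : 0 < N := by linarith
  have hD0' : 0 < |(D t : ℝ)| := by linarith [hD1 t]
  rw [Real.log_exp, Real.log_mul (by positivity) hD0'.ne', Real.log_mul (by positivity)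
    (by positivity), Real.log_pow, Real.log_pow, Real.log_exp] at h3
  push_cast at h3
  have h4 : (2 + 2 * (s : ℝ)) * (ε1 * L t) = ε / (6 * (1 + ε)) * L t := by
    rw [hε1]
    field_simp
  rw [h4] at h3
  have h5 := hlt' t
  have h6 : (1 + ε) * (L t / 6) ≤ (1 + ε) * (6 * Real.log N) + ε / 6 * L t +
      (1 + ε) * Real.log |(D t : ℝ)| := by
    have h7 := mul_le_mul_of_nonneg_left h3 (show 0 ≤ 1 + ε by linarith)
    have h8 : (1 + ε) * (ε / (6 * (1 + ε)) * L t) = ε / 6 * L t := by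
      field_simp
    nlinarith
  have h7 : (t : ℝ) ≤ (t : ℝ) * (1 + Real.log (M t)) := by
    have h8 := hlM t
    have h9 : (0 : ℝ) ≤ t := Nat.cast_nonneg t
    nlinarith
  nlinarith

end Pool.Agent.TH712.HG
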