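import Mathlib
import Pool.Agent.TH712.HG.SPart

/-!
# The part prime to `S` of `y ^ q - x ^ p` for sums of S-units
-/

set_option autoImplicit false
set_option linter.unusedSectionVars false
set_option linter.unusedVariables false

namespace Pool.Agent.TH712.HG

open Filter Topology Pool.Agent.TH932.Germs Pool.Agent.TH551.SU Pool.Agent.TH551.ZP
open Pool.Agent.TH551.SU.CRV Pool.Agent.TH551.SU.Ht Pool.Agent.TH551.HA

/-- the inequality at one place -/
lemma placeG {m n κ : ℕ} {X Y W Δ E z : ℝ} (hX : 0 ≤ X) (hY : 0 ≤ Y) (hΔ : 0 ≤ Δ)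
    (hE : 0 ≤ E) (hz : 0 < z) (hκ : (m + 1) * (n + 1) = κ + (m + 1) + (n + 1))
    (hzP : z ^ ((m + 1) * (n + 1)) = max (X ^ (m + 1)) (Y ^ (n + 1)))
    (h1 : Y ^ n * W ≤ E * (X * Δ)) (h2 : X ^ m * W ≤ E * (Y * Δ)) : z ^ κ * W ≤ E * Δ := by
  have e1 : (n + 1) * m = κ + (m + 1) := by
    have : (m + 1) * (n + 1) = (n + 1) * m + (n + 1) := by ring
    omega
  have e2 : (m + 1) * n = κ + (n + 1) := by
    have : (m + 1) * (n + 1) = (m + 1) * n + (m + 1) := by ring
    omega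
  have hXz : X ≤ z ^ (n + 1) := by
    have h3 : X ^ (m + 1) ≤ (z ^ (n + 1)) ^ (m + 1) := by
      rw [← pow_mul, mul_comm (n + 1) (m + 1), hzP]
      exact le_max_left _ _
    exact le_of_pow_le_pow_left₀ (Nat.succ_ne_zero m) (by positivity) h3
  have hYz : Y ≤ z ^ (m + 1) := by
    have h3 : Y ^ (n + 1) ≤ (z ^ (m + 1)) ^ (n + 1) := by
      rw [← pow_mul, hzP]
      exact le_max_right _ _
    exact le_of_pow_le_pow_left₀ (Nat.succ_ne_zero n) (by positivity) h3
  rcases max_choice (X ^ (m + 1)) (Y ^ (n + 1)) with h | h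
  · -- the first one is larger
    have hX2 : X = z ^ (n + 1) := by
      refine le_antisymm hXz ?_
      have h3 : (z ^ (n + 1)) ^ (m + 1) ≤ X ^ (m + 1) := by
        rw [← pow_mul, mul_comm (n + 1) (m + 1), hzP, h]
      exact le_of_pow_le_pow_left₀ (Nat.succ_ne_zero m) hX h3
    rw [hX2] at h2
    have h3 : E * (Y * Δ) ≤ E * (z ^ (m + 1) * Δ) :=
      mul_le_mul_of_nonneg_left (mul_le_mul_of_nonneg_right hYz hΔ) hE
    have h4 : z ^ (m + 1) * (z ^ κ * W) ≤ z ^ (m + 1) * (E * Δ) := by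
      calc z ^ (m + 1) * (z ^ κ * W) = (z ^ (n + 1)) ^ m * W := by
            rw [← pow_mul, e1, pow_add]
            ring
        _ ≤ E * (z ^ (m + 1) * Δ) := h2.trans h3
        _ = z ^ (m + 1) * (E * Δ) := by ring
    exact le_of_mul_le_mul_left h4 (by positivity)
  · have hY2 : Y = z ^ (m + 1) := by
      refine le_antisymm hYz ?_
      have h3 : (z ^ (m + 1)) ^ (n + 1) ≤ Y ^ (n + 1) := by
        rw [← pow_mul, hzP, h]
      exact le_of_pow_le_pow_left₀ (Nat.succ_ne_zero n) hY h3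
    rw [hY2] at h1
    have h3 : E * (X * Δ) ≤ E * (z ^ (n + 1) * Δ) :=
      mul_le_mul_of_nonneg_left (mul_le_mul_of_nonneg_right hXz hΔ) hE
    have h4 : z ^ (n + 1) * (z ^ κ * W) ≤ z ^ (n + 1) * (E * Δ) := by
      calc z ^ (n + 1) * (z ^ κ * W) = (z ^ (m + 1)) ^ n * W := by
            rw [← pow_mul, e2, pow_add]
            ring
        _ ≤ E * (z ^ (n + 1) * Δ) := h1.trans h3
        _ = z ^ (n + 1) * (E * Δ) := by ring
    exact le_of_mul_le_mul_left h4 (by positivity)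

/-- **The part prime to `S` of `y ^ q - x ^ p`.** -/
theorem hallSG (hnc : NcStmt) (hcs : CSStmt) (hhb : HbStmt) (hfw : FwStmt) (m n κ : ℕ)
    (hκ : (m + 1) * (n + 1) = κ + (m + 1) + (n + 1)) (hκ0 : 0 < κ) (S : Finset ℕ)
    (hS : ∀ p ∈ S, p.Prime) (k : ℕ) (Γ : Subgroup ℚˣ) (hΓ : Γ.FG) (ε : ℝ) (hε : 0 < ε) :
    ∃ C : ℝ, ∀ M : ℝ, 1 ≤ M → ∀ (u : Fin k → Γ) (a c : Fin k → ℤ), (∀ j, |(a j : ℝ)| ≤ M) →
      (∀ j, |(c j : ℝ)| ≤ M) → ∀ x y e D : ℤ, (x : ℚ) = ∑ j, ((u j : ℚˣ) : ℚ) * a j →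
      (y : ℚ) = ∑ j, ((u j : ℚˣ) : ℚ) * c j → D ≠ 0 → e ≠ 0 → e.natAbs.primeFactors ⊆ S →
      (∀ p ∈ S, ¬ ((p : ℤ) ^ (n + 1) ∣ x ∧ (p : ℤ) ^ (m + 1) ∣ y)) →
      y ^ (n + 1) = x ^ (m + 1) + e * D →
      (κ : ℝ) / ((m + 1 : ℝ) * (n + 1)) *
          Real.log (max (|(x : ℝ)| ^ (m + 1)) (|(y : ℝ)| ^ (n + 1))) ≤
        C * (1 + Real.log M) + (1 + ε) * Real.log |(D : ℝ)| := by
  classical
  obtain ⟨s, b, hb, hbi, hΓb⟩ := exists_base (Γ ⊔ Pool.Agent.TH419.HX.GamS S)
    (Subgroup.FG.sup hΓ (Pool.Agent.TH419.HX.gamS_fg S))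
  have hb0 : ∀ v, b v ≠ 0 := fun v => (hb v).ne_zero
  have hbS : ∀ p ∈ S, ∃ v, b v = p := by
    intro p hp
    by_contra hno
    push Not at hno
    have := Fact.mk (hS p hp)
    have hp0 : (p : ℚ) ≠ 0 := by exact_mod_cast (hS p hp).ne_zero
    have h1 : IsSU b ((Units.mk0 (p : ℚ) hp0 : ℚˣ) : ℚ) := by
      refine hΓb _ (Subgroup.mem_sup_right ?_)
      refine Pool.Agent.TH419.HX.mem_gamS (r := p) ⟨(hS p hp).ne_zero, ?_⟩ _ rfl
      rw [(hS p hp).primeFactors]
      exact Finset.singleton_subset_iff.2 hp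
    have h2 := Pool.Agent.TH551.ZP.AR.val_SU_out hb p hno h1
    rw [Units.val_mk0, padicValRat.self (hS p hp).one_lt] at h2
    exact one_ne_zero h2
  by_contra hcon
  push Not at hcon
  choose M hM u a c ha hc x y e D hx hy hD0 he0 heS hprim hxy hlt using fun t : ℕ => hcon (t : ℝ)
  set L : ℕ → ℝ := fun t => Real.log (max (|(x t : ℝ)| ^ (m + 1)) (|(y t : ℝ)| ^ (n + 1)))
    with hLdef
  have hPpos : (0 : ℝ) < (m + 1 : ℝ) * (n + 1) := by positivity
  have hκR : ((m + 1 : ℝ) * (n + 1)) = κ + (m + 1) + (n + 1) := by exact_mod_cast hκ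
  obtain ⟨τ, hτ⟩ : ∃ τ : ℝ, τ = (κ : ℝ) / ((m + 1 : ℝ) * (n + 1)) := ⟨_, rfl⟩
  have hκ0R : (0 : ℝ) < κ := by exact_mod_cast hκ0
  have hτ0 : 0 < τ := by rw [hτ]; positivity
  have hτ1 : τ ≤ 1 := by
    rw [hτ, div_le_one hPpos, hκR]
    have h1 : (0 : ℝ) ≤ m := Nat.cast_nonneg m
    have h2 : (0 : ℝ) ≤ n := Nat.cast_nonneg n
    linarith
  have hΔ0 : ∀ t, e t * D t ≠ 0 := fun t => mul_ne_zero (he0 t) (hD0 t)
  have hne : ∀ t, y t ^ (n + 1) ≠ x t ^ (m + 1) := by
    intro t h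
    have h1 := hxy t
    rw [h] at h1
    exact hΔ0 t (by linarith)
  have hmax1 : ∀ t, 1 ≤ max (|(x t : ℝ)| ^ (m + 1)) (|(y t : ℝ)| ^ (n + 1)) := fun t =>
    one_le_size (by omega) (by omega) (hne t)
  have hL0 : ∀ t, 0 ≤ L t := fun t => Real.log_nonneg (hmax1 t)
  have hlM : ∀ t, 0 ≤ Real.log (M t) := fun t => Real.log_nonneg (hM t)
  have hD1 : ∀ t, 1 ≤ |(D t : ℝ)| := fun t => by exact_mod_cast Int.one_le_abs (hD0 t)
  have hlD : ∀ t, 0 ≤ Real.log |(D t : ℝ)| := fun t => Real.log_nonneg (hD1 t)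
  have hlt' : ∀ t : ℕ, (t : ℝ) * (1 + Real.log (M t)) + (1 + ε) * Real.log |(D t : ℝ)| <
      τ * L t := fun t => by rw [hτ]; exact hlt t
  have hLt : ∀ t : ℕ, (t : ℝ) * (1 + Real.log (M t)) < L t := by
    intro t
    have h1 := hlt' t
    have h2 : 0 ≤ (1 + ε) * Real.log |(D t : ℝ)| := mul_nonneg (by linarith) (hlD t)
    have h3 := hL0 t
    have h4 : τ * L t ≤ L t := mul_le_of_le_one_left h3 hτ1
    linarith
  have hL : Tendsto L atTop atTop := by
    refine tendsto_atTop_mono (fun t => ?_) tendsto_natCast_atTop_atTop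
    have h1 := hLt t
    have h2 : 0 ≤ (t : ℝ) * Real.log (M t) := mul_nonneg (Nat.cast_nonneg t) (hlM t)
    rw [mul_add, mul_one] at h1
    linarith
  -- the digits are negligible
  have hneg : ∀ z : ℕ → ℤ, (∀ t, |(z t : ℝ)| ≤ M t) → gm (fun t => (z t : ℚ)) ∈ KK L hL := by
    intro z hz
    refine ⟨z, fun _ => 1, ?_, Negl.one hL, by simp, by
      congr 1
      funext t
      simp⟩
    intro ε' hε'
    have h1 : ∀ᶠ t : ℕ in atTop, 1 / ε' ≤ (t : ℝ) :=
      tendsto_natCast_atTop_atTop.eventually_ge_atTop _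
    refine ev_of_atTop (h1.mono fun t ht => ?_)
    refine (hz t).trans ?_
    rw [← Real.exp_log (show 0 < M t by linarith [hM t])]
    refine Real.exp_le_exp.2 ?_
    have h2 := hLt t
    have h3 : 1 / ε' * Real.log (M t) ≤ (t : ℝ) * (1 + Real.log (M t)) := by
      have h5 : (0 : ℝ) ≤ t := Nat.cast_nonneg t
      nlinarith [mul_le_mul_of_nonneg_right ht (hlM t)]
    have h5 : 1 / ε' * Real.log (M t) ≤ L t := h3.trans h2.le
    rw [one_div, inv_mul_le_iff₀ hε'] at h5
    exact h5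
  -- integers bounded by a power of exp L
  have hintle : ∀ z : ℕ → ℤ, (∀ t, |(z t : ℝ)| ≤ Real.exp (L t)) → ∀ t, ∀ v,
      av b v (z t : ℚ) ≤ Real.exp (1 * L t) := by
    intro z hz t v
    rw [one_mul]
    cases v with
    | none =>
      simp only [av]
      push_cast
      exact hz t
    | some w => exact (av_int_le hb w (z t)).trans (Real.one_le_exp (hL0 t))
  have hpowle : ∀ (z : ℤ) (e : ℕ) (B : ℝ), 1 ≤ B → |(z : ℝ)| ^ (e + 1) ≤ B → |(z : ℝ)| ≤ B := by
    intro z e B hB hz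
    by_cases h0 : z = 0
    · rw [h0, Int.cast_zero, abs_zero]
      linarith
    · have h1 : (1 : ℝ) ≤ |(z : ℝ)| := by exact_mod_cast Int.one_le_abs h0
      exact (le_self_pow₀ h1 (by omega)).trans hz
  have hexpL : ∀ t, Real.exp (L t) = max (|(x t : ℝ)| ^ (m + 1)) (|(y t : ℝ)| ^ (n + 1)) :=
    fun t => Real.exp_log (by linarith [hmax1 t])
  have hxle : ∀ t, |(x t : ℝ)| ≤ Real.exp (L t) := fun t =>
    hpowle _ m _ (Real.one_le_exp (hL0 t)) (by rw [hexpL]; exact le_max_left _ _)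
  have hyle : ∀ t, |(y t : ℝ)| ≤ Real.exp (L t) := fun t =>
    hpowle _ n _ (Real.one_le_exp (hL0 t)) (by rw [hexpL]; exact le_max_right _ _)
  -- the germs
  set V : Fin k → GG := fun j => gm (fun t => ((u t j : ℚˣ) : ℚ)) with hV
  have hVS : ∀ j, GSU b (V j) := fun j =>
    ⟨_, rfl, fun t => hΓb _ (Subgroup.mem_sup_left (u t j).2)⟩
  have hgerm : ∀ (z : ℕ → ℤ) (e : ℕ → Fin k → ℤ),
      (∀ t, (z t : ℚ) = ∑ j, ((u t j : ℚˣ) : ℚ) * e t j) →
      ∑ j, gm (fun t => (e t j : ℚ)) * V j = gm (fun t => (z t : ℚ)) := by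
    intro z e hz
    have h1 : ∀ j, gm (fun t => (e t j : ℚ)) * V j =
        gm (fun t => ((u t j : ℚˣ) : ℚ) * e t j) := by
      intro j
      rw [hV]
      simp only
      rw [gm_mul]
      congr 1
      funext t
      ring
    simp only [h1]
    rw [gm_sum']
    congr 1
    funext t
    rw [hz t]
  have hrepz : ∀ z : ℕ → ℤ, ∀ᶠ t in (UU : Filter ℕ), rep (gm (fun t => (z t : ℚ))) t = z t :=
    fun z => rep_gm _
  have hHB : ∀ (z : ℕ → ℤ) (e : ℕ → Fin k → ℤ),
      (∀ t, (z t : ℚ) = ∑ j, ((u t j : ℚˣ) : ℚ) * e t j) → (∀ t j, |(e t j : ℝ)| ≤ M t) →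
      (∀ t, |(z t : ℝ)| ≤ Real.exp (L t)) →
      ∃ (m' : ℕ) (u' : Fin m' → GG) (c' : Fin m' → KK L hL), (∀ i, GSU b (u' i)) ∧
        (∀ i, Mod b L (u' i)) ∧ ∑ j, (c' j : GG) * u' j = gm (fun t => (z t : ℚ)) := by
    intro z e hz he hzl
    have h1 := hhb s b hb hbi L hL k V hVS
      (fun j => ⟨gm (fun t => (e t j : ℚ)), hneg _ fun t => he t j⟩) 1 (by
        have h2 : ∑ j, ((⟨gm (fun t => (e t j : ℚ)), hneg _ fun t => he t j⟩ : KK L hL) : GG) *
            V j = gm (fun t => (z t : ℚ)) := hgerm z e hz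
        rw [h2]
        filter_upwards [hrepz z] with t ht v
        rw [ht]
        exact hintle z hzl t v)
    obtain ⟨m', u', c', h3, h4, h5⟩ := h1
    exact ⟨m', u', c', h3, h4, h5.trans (hgerm z e hz)⟩
  obtain ⟨m1, u1, c1, hu1, hu1', hs1⟩ := hHB x a hx ha hxle
  obtain ⟨m2, u2, c2, hu2, hu2', hs2⟩ := hHB y c hy hc hyle
  -- the combined family
  set W : Fin (m1 + m2 + 1) → GG := Fin.cons 1 (Fin.append u1 u2) with hW
  have hWall : ∀ (P : GG → Prop), P 1 → (∀ j, P (u1 j)) → (∀ j, P (u2 j)) → ∀ j, P (W j) := by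
    intro P h0 h1 h2 j
    rw [hW]
    refine Fin.cases ?_ (fun j => ?_) j
    · simpa using h0
    · rw [Fin.cons_succ]
      refine Fin.addCases (fun i => ?_) (fun i => ?_) j
      · rw [Fin.append_left]
        exact h1 i
      · rw [Fin.append_right]
        exact h2 i
  have hWg : ∀ j, GSU b (W j) := hWall _ GSU.one hu1 hu2
  have hWm : ∀ j, Mod b L (W j) := hWall _ (Mod.one hb hL) hu1' hu2'
  obtain ⟨l, hl⟩ := hfw L hL (m1 + m2) W (fun j => GSU.ne_zero hb (hWg j)) (m + n + 5)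
  have hs : Setup b hL W l (m + n + 5) := ⟨hWg, hWm, hl⟩
  obtain ⟨X, hX, hX1⟩ := exists_lift (hL := hL) W l (fun j : Fin m1 => (Fin.castAdd m2 j).succ) c1
  obtain ⟨Y, hY, hY1⟩ := exists_lift (hL := hL) W l (fun j : Fin m2 => (Fin.natAdd m1 j).succ) c2
  have hX2 : X.eval 1 = gm (fun t => (x t : ℚ)) := by
    rw [hX1, ← hs1]
    refine Finset.sum_congr rfl fun j _ => ?_
    rw [hW, Fin.cons_succ, Fin.append_left]
  have hY2 : Y.eval 1 = gm (fun t => (y t : ℚ)) := by
    rw [hY1, ← hs2]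
    refine Finset.sum_congr rfl fun j _ => ?_
    rw [hW, Fin.cons_succ, Fin.append_right]
  have hing : ∀ z : ℕ → ℤ, Ing b L (gm (fun t => (z t : ℚ))) := by
    intro z v
    rw [← gm_one, dom_gm]
    intro ε' hε'
    filter_upwards [L_nonneg hL] with t ht
    rw [av_one hb, mul_one]
    exact (av_int_le hb v (z t)).trans (Real.one_le_exp (by positivity))
  have hDg : gm (fun t => (y t : ℚ)) ^ (n + 1) - gm (fun t => (x t : ℚ)) ^ (m + 1) =
      gm (fun t => (e t : ℚ) * (D t : ℚ)) := by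
    rw [gm_pow, gm_pow, gm_sub]
    congr 1
    funext t
    have h1 : ((y t ^ (n + 1) : ℤ) : ℚ) = ((x t ^ (m + 1) + e t * D t : ℤ) : ℚ) := by
      rw [hxy t]
    push_cast at h1
    linarith
  have key := hallPlaces hnc hcs hb hbi hs (by rw [hW]; rfl) m n le_rfl X Y hX hY
    (by rw [hX2]; exact hing x) (by rw [hY2]; exact hing y) (by
      rw [hX2, hY2, hDg, gm_ne_zero]
      refine Eventually.of_forall fun t => ?_
      exact_mod_cast hΔ0 t)
  rw [hX2, hY2, hDg] at key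
  -- the places of `S`
  set F : Finset (Fin s) := Finset.univ.filter fun v => b v ∈ S with hF
  set N : ℝ := ∏ v ∈ F, (b v : ℝ) with hN
  have hb1 : ∀ v, (1 : ℝ) ≤ b v := fun v => by exact_mod_cast (hb v).one_lt.le
  have hN1 : 1 ≤ N := by
    rw [hN]
    calc (1 : ℝ) = ∏ _v ∈ F, (1 : ℝ) := by simp
      _ ≤ ∏ v ∈ F, (b v : ℝ) := Finset.prod_le_prod (fun _ _ => zero_le_one) fun v _ => hb1 v
  have heU : ∀ t, pr b F (e t : ℚ) = 1 := by
    intro t
    have h1 : IsSU b (((e t).natAbs : ℕ) : ℚ) := by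
      refine IsSU.nat hb0 _ (Int.natAbs_ne_zero.2 (he0 t)) ?_
      intro p hp hpd
      refine hbS p (heS t ?_)
      rw [Nat.mem_primeFactors]
      exact ⟨hp, hpd, Int.natAbs_ne_zero.2 (he0 t)⟩
    have h2 : IsSU b (e t : ℚ) := by
      rcases Int.natAbs_eq (e t) with h4 | h4
      · have h5 : (e t : ℚ) = (((e t).natAbs : ℕ) : ℚ) := by
          conv_lhs => rw [h4]
          rw [Int.cast_natCast]
        rw [h5]
        exact h1
      · have h5 : (e t : ℚ) = -(((e t).natAbs : ℕ) : ℚ) := by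
          conv_lhs => rw [h4]
          rw [Int.cast_neg, Int.cast_natCast]
        rw [h5]
        exact IsSU.neg h1
    refine pr_unit hb hbi F h2 fun v hv => ?_
    have := Fact.mk (hb v)
    simp only [av]
    have h3 : padicNorm (b v) (e t : ℚ) = 1 := by
      rw [padicNorm.int_eq_one_iff]
      intro hdvd
      apply hv
      rw [hF, Finset.mem_filter]
      refine ⟨Finset.mem_univ _, heS t ?_⟩
      rw [Nat.mem_primeFactors]
      exact ⟨hb v, Int.natCast_dvd.1 hdvd, Int.natAbs_ne_zero.2 (he0 t)⟩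
    rw [h3]
    norm_num
  have hprΔ : ∀ t, pr b F ((e t : ℚ) * (D t : ℚ)) ≤ |(D t : ℝ)| := by
    intro t
    rw [pr_mul hb, heU t, one_mul]
    exact pr_int_le hb F (D t)
  -- the sizes at the places
  set mx : Option (Fin s) → ℕ → ℝ := fun v t =>
    max (av b v (x t : ℚ) ^ (m + 1)) (av b v (y t : ℚ) ^ (n + 1)) with hmx
  set z : Option (Fin s) → ℕ → ℝ := fun v t => mx v t ^ (1 / ((m + 1 : ℝ) * (n + 1))) with hz
  have hmx0 : ∀ v t, 0 ≤ mx v t := fun v t =>
    le_max_of_le_left (pow_nonneg (av_nonneg hb _ _) _)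
  have hz6 : ∀ v t, z v t ^ ((m + 1) * (n + 1)) = mx v t := by
    intro v t
    rw [hz]
    simp only
    rw [← Real.rpow_natCast, ← Real.rpow_mul (hmx0 v t)]
    push_cast
    rw [one_div, inv_mul_cancel₀ hPpos.ne', Real.rpow_one]
  have hz0 : ∀ v t, 0 ≤ z v t := fun v t => Real.rpow_nonneg (hmx0 v t) _
  have hmxn : ∀ t, mx none t = Real.exp (L t) := by
    intro t
    rw [hexpL t, hmx]
    simp only [av]
    push_cast
    rfl
  have hzn0' : ∀ t, 0 < z none t := by
    intro t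
    rw [hz]
    simp only
    rw [hmxn t]
    positivity
  have hzn : ∀ t, z none t ^ κ = Real.exp (τ * L t) := by
    intro t
    rw [hz]
    simp only
    rw [hmxn t, ← Real.exp_mul, ← Real.exp_nat_mul, hτ]
    congr 1
    ring
  have hzS : ∀ v ∈ F, ∀ t, (b v : ℝ)⁻¹ ≤ z (some v) t := by
    intro v hv t
    have := Fact.mk (hb v)
    have hvS : b v ∈ S := (Finset.mem_filter.1 hv).2
    have h1 : ((b v : ℝ)⁻¹) ^ ((m + 1) * (n + 1)) ≤ z (some v) t ^ ((m + 1) * (n + 1)) := by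
      rw [hz6]
      have h2 := hprim t (b v) hvS
      have h3 : ∀ (j : ℕ) (q : ℤ), ¬ ((b v : ℤ) ^ j ∣ q) →
          ((b v : ℝ)⁻¹) ^ j ≤ av b (some v) (q : ℚ) := by
        intro j q hq
        have h4 : ¬ ((((b v) ^ j : ℕ) : ℤ) ∣ q) := by
          push_cast
          exact hq
        rw [padicNorm.dvd_iff_norm_le] at h4
        push Not at h4
        have h5 : ((((b v : ℚ) ^ (-(j : ℕ) : ℤ)) : ℚ) : ℝ) ≤ ((padicNorm (b v) q : ℚ) : ℝ) := by
          exact_mod_cast h4.le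
        refine le_trans (le_of_eq ?_) h5
        push_cast
        rw [zpow_neg, inv_pow]
        norm_cast
      have hbv0 : 0 ≤ (b v : ℝ)⁻¹ := inv_nonneg.2 (by linarith [hb1 v])
      by_cases h4 : (b v : ℤ) ^ (n + 1) ∣ x t
      · have h5 : ¬ ((b v : ℤ) ^ (m + 1) ∣ y t) := h2 h4
        rw [pow_mul]
        exact (pow_le_pow_left₀ (pow_nonneg hbv0 _) (h3 _ _ h5) _).trans (le_max_right _ _)
      · rw [mul_comm (m + 1) (n + 1), pow_mul]
        exact (pow_le_pow_left₀ (pow_nonneg hbv0 _) (h3 _ _ h4) _).trans (le_max_left _ _)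
    exact le_of_pow_le_pow_left₀ (by positivity) (hz0 _ _) h1
  have hzSp : ∀ t, N⁻¹ ≤ ∏ v ∈ F, z (some v) t := by
    intro t
    rw [hN, ← Finset.prod_inv_distrib]
    exact Finset.prod_le_prod (fun v _ => inv_nonneg.2 (by linarith [hb1 v]))
      fun v hv => hzS v hv t
  -- the small parameter
  obtain ⟨ε1, hε1⟩ : ∃ ε1 : ℝ, ε1 = ε * τ / ((1 + ε) * (2 + 2 * s)) := ⟨_, rfl⟩
  have hε1pos : 0 < ε1 := by rw [hε1]; positivity
  have hcard : F.card ≤ s := (Finset.card_le_univ _).trans (by rw [Fintype.card_fin])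
  have hκP : κ ≤ (m + 1) * (n + 1) := by omega
  have hfin : ∀ᶠ t in (UU : Filter ℕ), Real.exp (τ * L t) ≤
      N ^ ((m + 1) * (n + 1)) * Real.exp (ε1 * L t) ^ (2 + 2 * s) * |(D t : ℝ)| := by
    rcases key with ⟨w, hw1, hw2, hw3, hw4⟩ | hk
    · have e1 : ∀ᶠ t in (UU : Filter ℕ), ∀ v, av b v (y t : ℚ) ^ n * av b v (rep w t) ≤
          Real.exp (ε1 * L t) * (av b v (x t : ℚ) * av b v ((e t : ℚ) * (D t : ℚ))) := by
        refine eventually_all.2 fun v => ?_
        have h1 := hw1 v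
        rw [← gm_rep w, gm_pow, gm_mul, gm_mul, dom_gm] at h1
        filter_upwards [h1 ε1 hε1pos] with t ht
        rwa [av_mul hb, av_mul hb, av_pow hb] at ht
      have e2 : ∀ᶠ t in (UU : Filter ℕ), ∀ v, av b v (x t : ℚ) ^ m * av b v (rep w t) ≤
          Real.exp (ε1 * L t) * (av b v (y t : ℚ) * av b v ((e t : ℚ) * (D t : ℚ))) := by
        refine eventually_all.2 fun v => ?_
        have h1 := hw2 v
        rw [← gm_rep w, gm_pow, gm_mul, gm_mul, dom_gm] at h1
        filter_upwards [h1 ε1 hε1pos] with t ht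
        rwa [av_mul hb, av_mul hb, av_pow hb] at ht
      have e3 : ∀ᶠ t in (UU : Filter ℕ), ∀ v : Fin s, av b (some v) (rep w t) ≤
          Real.exp (ε1 * L t) := by
        refine eventually_all.2 fun v => ?_
        filter_upwards [hw3 v ε1 hε1pos, rep_one] with t h1 h2
        rwa [h2, av_one hb, mul_one] at h1
      filter_upwards [e1, e2, e3, hw4 ε1 hε1pos, L_nonneg hL] with t h1 h2 h3 h4 h5
      set E : ℝ := Real.exp (ε1 * L t) with hE
      have hE1 : 1 ≤ E := Real.one_le_exp (by positivity)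
      have hE0 : 0 < E := by linarith
      -- at one place
      have hpl : ∀ v, 0 < z v t → z v t ^ κ * av b v (rep w t) ≤
          E * av b v ((e t : ℚ) * (D t : ℚ)) := fun v hv =>
        placeG (av_nonneg hb _ _) (av_nonneg hb _ _) (av_nonneg hb _ _) hE0.le hv hκ (hz6 v t)
          (h1 v) (h2 v)
      have hzn0 : 0 < z none t := hzn0' t
      have hzS0 : ∀ v ∈ F, 0 < z (some v) t := fun v hv =>
        lt_of_lt_of_le (inv_pos.2 (by linarith [hb1 v])) (hzS v hv t)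
      have h6 : (z none t ^ κ * ∏ v ∈ F, z (some v) t ^ κ) * pr b F (rep w t) ≤
          E ^ (1 + s) * |(D t : ℝ)| := by
        calc (z none t ^ κ * ∏ v ∈ F, z (some v) t ^ κ) * pr b F (rep w t) =
            (z none t ^ κ * av b none (rep w t)) *
              ∏ v ∈ F, (z (some v) t ^ κ * av b (some v) (rep w t)) := by
              unfold pr
              rw [Finset.prod_mul_distrib]
              ring
          _ ≤ (E * av b none ((e t : ℚ) * (D t : ℚ))) *
              ∏ v ∈ F, (E * av b (some v) ((e t : ℚ) * (D t : ℚ))) := by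
              refine mul_le_mul (hpl none hzn0) ?_ ?_ ?_
              · refine Finset.prod_le_prod (fun v hv => ?_) fun v hv => hpl _ (hzS0 v hv)
                exact mul_nonneg (pow_nonneg (hz0 _ _) _) (av_nonneg hb _ _)
              · exact Finset.prod_nonneg fun v _ =>
                  mul_nonneg (pow_nonneg (hz0 _ _) _) (av_nonneg hb _ _)
              · exact mul_nonneg hE0.le (av_nonneg hb _ _)
          _ = E ^ (1 + F.card) * pr b F ((e t : ℚ) * (D t : ℚ)) := by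
              unfold pr
              rw [Finset.prod_mul_distrib, Finset.prod_const, pow_add, pow_one]
              ring
          _ ≤ E ^ (1 + s) * |(D t : ℝ)| := by
              refine mul_le_mul (pow_le_pow_right₀ hE1 (by omega)) (hprΔ t)
                (pr_nonneg hb _ _) (by positivity)
      have h7 := pr_lower hb F hE1 h3
      have h8 : Real.exp (-(ε1 * L t)) ≤ pr b F (rep w t) * E ^ s := h4.trans h7
      have h9 : 1 ≤ pr b F (rep w t) * E ^ (s + 1) := by
        have h10 : Real.exp (-(ε1 * L t)) * E = 1 := by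
          rw [hE, ← Real.exp_add]
          simp
        calc (1 : ℝ) = Real.exp (-(ε1 * L t)) * E := h10.symm
          _ ≤ (pr b F (rep w t) * E ^ s) * E := mul_le_mul_of_nonneg_right h8 hE0.le
          _ = pr b F (rep w t) * E ^ (s + 1) := by ring
      have h10 : Real.exp (τ * L t) * (N⁻¹) ^ κ ≤ z none t ^ κ * ∏ v ∈ F, z (some v) t ^ κ := by
        rw [← hzn t, Finset.prod_pow]
        exact mul_le_mul_of_nonneg_left (pow_le_pow_left₀ (by positivity) (hzSp t) κ)
          (pow_nonneg (hz0 _ _) _)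
      have h11 : Real.exp (τ * L t) * (N⁻¹) ^ κ ≤ E ^ (2 + 2 * s) * |(D t : ℝ)| := by
        calc Real.exp (τ * L t) * (N⁻¹) ^ κ ≤ (Real.exp (τ * L t) * (N⁻¹) ^ κ) *
              (pr b F (rep w t) * E ^ (s + 1)) := le_mul_of_one_le_right (by positivity) h9
          _ ≤ (z none t ^ κ * ∏ v ∈ F, z (some v) t ^ κ) * (pr b F (rep w t) * E ^ (s + 1)) :=
              mul_le_mul_of_nonneg_right h10
                (mul_nonneg (pr_nonneg hb _ _) (by positivity))
          _ = ((z none t ^ κ * ∏ v ∈ F, z (some v) t ^ κ) * pr b F (rep w t)) * E ^ (s + 1) := by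
              ring
          _ ≤ (E ^ (1 + s) * |(D t : ℝ)|) * E ^ (s + 1) :=
              mul_le_mul_of_nonneg_right h6 (by positivity)
          _ = E ^ (2 + 2 * s) * |(D t : ℝ)| := by ring
      have h12 : Real.exp (τ * L t) ≤ N ^ κ * (E ^ (2 + 2 * s) * |(D t : ℝ)|) := by
        rw [inv_pow, ← div_eq_mul_inv, div_le_iff₀ (by positivity)] at h11
        linarith
      calc Real.exp (τ * L t) ≤ N ^ κ * (E ^ (2 + 2 * s) * |(D t : ℝ)|) := h12
        _ ≤ N ^ ((m + 1) * (n + 1)) * (E ^ (2 + 2 * s) * |(D t : ℝ)|) :=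
            mul_le_mul_of_nonneg_right (pow_le_pow_right₀ hN1 hκP) (by positivity)
        _ = N ^ ((m + 1) * (n + 1)) * E ^ (2 + 2 * s) * |(D t : ℝ)| := by ring
    · have e1 : ∀ᶠ t in (UU : Filter ℕ), ∀ v, mx v t ≤
          Real.exp (ε1 * L t) * av b v ((e t : ℚ) * (D t : ℚ)) := by
        refine eventually_all.2 fun v => ?_
        obtain ⟨h1, h2⟩ := hk v
        rw [gm_pow, dom_gm] at h1 h2
        filter_upwards [h1 ε1 hε1pos, h2 ε1 hε1pos] with t h3 h4
        rw [av_pow hb] at h3 h4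
        exact max_le h3 h4
      filter_upwards [e1, L_nonneg hL] with t h1 h5
      set E : ℝ := Real.exp (ε1 * L t) with hE
      have hE1 : 1 ≤ E := Real.one_le_exp (by positivity)
      have hE0 : 0 < E := by linarith
      have h6 : mx none t * ∏ v ∈ F, mx (some v) t ≤ E ^ (1 + s) * |(D t : ℝ)| := by
        calc mx none t * ∏ v ∈ F, mx (some v) t
            ≤ (E * av b none ((e t : ℚ) * (D t : ℚ))) *
              ∏ v ∈ F, (E * av b (some v) ((e t : ℚ) * (D t : ℚ))) := by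
              refine mul_le_mul (h1 none) ?_ ?_ ?_
              · exact Finset.prod_le_prod (fun v hv => hmx0 _ _) fun v hv => h1 _
              · exact Finset.prod_nonneg fun v _ => hmx0 _ _
              · exact mul_nonneg hE0.le (av_nonneg hb _ _)
          _ = E ^ (1 + F.card) * pr b F ((e t : ℚ) * (D t : ℚ)) := by
              unfold pr
              rw [Finset.prod_mul_distrib, Finset.prod_const, pow_add, pow_one]
              ring
          _ ≤ E ^ (1 + s) * |(D t : ℝ)| := by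
              refine mul_le_mul (pow_le_pow_right₀ hE1 (by omega)) (hprΔ t)
                (pr_nonneg hb _ _) (by positivity)
      have h7 : (N⁻¹) ^ ((m + 1) * (n + 1)) ≤ ∏ v ∈ F, mx (some v) t := by
        calc (N⁻¹) ^ ((m + 1) * (n + 1)) ≤ (∏ v ∈ F, z (some v) t) ^ ((m + 1) * (n + 1)) :=
              pow_le_pow_left₀ (by positivity) (hzSp t) _
          _ = ∏ v ∈ F, mx (some v) t := by
              rw [← Finset.prod_pow]
              exact Finset.prod_congr rfl fun v _ => hz6 _ _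
      have h8 : Real.exp (τ * L t) ≤ mx none t := by
        rw [hmxn]
        refine Real.exp_le_exp.2 ?_
        exact mul_le_of_le_one_left h5 hτ1
      have h9 : Real.exp (τ * L t) * (N⁻¹) ^ ((m + 1) * (n + 1)) ≤
          E ^ (1 + s) * |(D t : ℝ)| :=
        (mul_le_mul h8 h7 (by positivity) (hmx0 _ _)).trans h6
      have h10 : Real.exp (τ * L t) ≤
          N ^ ((m + 1) * (n + 1)) * (E ^ (1 + s) * |(D t : ℝ)|) := by
        rw [inv_pow, ← div_eq_mul_inv, div_le_iff₀ (by positivity)] at h9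
        linarith
      calc Real.exp (τ * L t) ≤ N ^ ((m + 1) * (n + 1)) * (E ^ (1 + s) * |(D t : ℝ)|) := h10
        _ ≤ N ^ ((m + 1) * (n + 1)) * (E ^ (2 + 2 * s) * |(D t : ℝ)|) := by
            refine mul_le_mul_of_nonneg_left ?_ (by positivity)
            exact mul_le_mul_of_nonneg_right (pow_le_pow_right₀ hE1 (by omega)) (abs_nonneg _)
        _ = N ^ ((m + 1) * (n + 1)) * E ^ (2 + 2 * s) * |(D t : ℝ)| := by ring
  -- the final contradiction
  have hbig : ∀ᶠ t : ℕ in (UU : Filter ℕ),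
      (1 + ε) * (((m + 1 : ℝ) * (n + 1)) * Real.log N) ≤ (t : ℝ) :=
    ev_of_atTop (tendsto_natCast_atTop_atTop.eventually_ge_atTop _)
  obtain ⟨t, h1, h2⟩ := (hbig.and hfin).exists
  have h3 := Real.log_le_log (Real.exp_pos _) h2
  have hN0 : 0 < N := by linarith
  have hD0' : 0 < |(D t : ℝ)| := by linarith [hD1 t]
  rw [Real.log_exp, Real.log_mul (by positivity) hD0'.ne', Real.log_mul (by positivity)
    (by positivity), Real.log_pow, Real.log_pow, Real.log_exp] at h3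
  push_cast at h3
  have h4 : (2 + 2 * (s : ℝ)) * (ε1 * L t) = ε * τ / (1 + ε) * L t := by
    rw [hε1]
    field_simp
  rw [h4] at h3
  have h5 := hlt' t
  have h6 : (1 + ε) * (τ * L t) ≤ (1 + ε) * (((m + 1 : ℝ) * (n + 1)) * Real.log N) +
      ε * τ * L t + (1 + ε) * Real.log |(D t : ℝ)| := by
    have h7 := mul_le_mul_of_nonneg_left h3 (show 0 ≤ 1 + ε by linarith)
    have h8 : (1 + ε) * (ε * τ / (1 + ε) * L t) = ε * τ * L t := by
      field_simp
    nlinarith
  have h7 : (t : ℝ) ≤ (t : ℝ) * (1 + Real.log (M t)) := by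
    have h8 := hlM t
    have h9 : (0 : ℝ) ≤ t := Nat.cast_nonneg t
    nlinarith
  nlinarith

end Pool.Agent.TH712.HG
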